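import Pool.Agent.KR.Defs

/-!
# Interface: the statements of the modules (project MP_b1567b_co, flags)
-/

set_option autoImplicit false

namespace KR

open Function

/-- LA: regions and edges -/
def S_LA : Prop := ∀ (Ω V F : Type) [Finite Ω] [Finite V] [Finite F] (m : QFlag Ω V F)
  (Y : Set V), Y.Nonempty → m.d Y ≤ 4 * (m.R Y + Y.ncard)

/-- 4-connected graphs are tough -/
def S_TC : Prop := ∀ (Ω V F : Type) [Finite Ω] [Fintype V] [Fintype F] (m : QFlag Ω V F)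
  (G : SimpleGraph (V ⊕ F)), m.Btw G → FourConn G → m.Tough

/-- Hall -/
def S_HALL : Prop := ∀ (Ω V F : Type) [Finite Ω] [Finite V] [Finite F] (m : QFlag Ω V F),
  (∀ Y : Set V, Y.Nonempty → m.d Y ≤ 8 * Y.ncard) → ∃ O, m.Ori O

/-- a connected 2-factor gives a Hamilton cycle -/
def S_HC : Prop := ∀ (Ω V F : Type) [Finite Ω] [Fintype V] [Fintype F] [DecidableEq V]
  [DecidableEq F] (m : QFlag Ω V F) (G : SimpleGraph (V ⊕ F)) (C : Set Ω),
  m.Btw G → 5 ≤ Fintype.card (V ⊕ F) → m.Fac C → G.IsHamiltonian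

/-- counting -/
def S_CNT : Prop := ∀ (W Ω : Type) [Fintype W] [Finite Ω] (G : SimpleGraph W) (M : GMap G Ω)
  (I : Set W), FourConn G → M.EulerNonneg → (∀ u ∈ I, ∀ v ∈ I, ¬ G.Adj u v) →
  Nat.card W ≤ 2 * I.ncard → M.Tight I

/-- the quadrangular map of a tight map; its vertices are the vertices outside `I`, its faces are
the vertices in `I` -/
def S_DM : Prop := ∀ (W Ω : Type) [Finite W] [Finite Ω] (G : SimpleGraph W) (M : GMap G Ω)
  (I : Set W), G.Connected → M.Tight I →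
  ∃ m : QFlag {x : Ω // M.w x ∈ I} {u : W // u ∉ I} {u : W // u ∈ I},
    (∀ x, (m.a0 x).1 = M.a1 x.1) ∧ (∀ x, (m.a1 x).1 = M.a2 x.1) ∧
    (∀ x, (m.v x).1 = M.w (M.a0 x.1)) ∧ (∀ x, (m.f x).1 = M.w x.1)

/-- the core theorem (module of the chief) -/
def S_CORE : Prop := ∀ (Ω V F : Type) [Finite Ω] [Finite V] [Finite F] (m : QFlag Ω V F),
  (∃ O, m.Ori O) → ∃ C, m.Fac C

end KR
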