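import Pool.Agent.KR.St

/-!
# Assembly
-/

set_option autoImplicit false

namespace KR

open Function

namespace Asm

variable {W Ω : Type} {G : SimpleGraph W}

theorem indep_of (M : GMap G Ω) {I : Set W} (hT : M.Tight I) {x : Ω} (hx : M.w x ∈ I) :
    M.w (M.a0 x) ∉ I := by
  intro h
  exact hT.indep _ hx _ h ((M.adj _ _).2 ⟨x, rfl, rfl⟩)

/-- the graph lies between the vertex-face graph and the full one -/
theorem btw (M : GMap G Ω) {I : Set W} (hT : M.Tight I)
    (m : QFlag {x : Ω // M.w x ∈ I} {u : W // u ∉ I} {u : W // u ∈ I})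
    (h0 : ∀ x, (m.a0 x).1 = M.a1 x.1) (hv : ∀ x, (m.v x).1 = M.w (M.a0 x.1))
    (hf : ∀ x, (m.f x).1 = M.w x.1)
    (G' : SimpleGraph ({u : W // u ∉ I} ⊕ {u : W // u ∈ I}))
    (hG' : ∀ p q, G'.Adj p q ↔ G.Adj (Sum.elim Subtype.val Subtype.val p)
      (Sum.elim Subtype.val Subtype.val q)) : m.Btw G' := by
  refine ⟨?_, ?_, ?_⟩
  · intro a b
    rw [hG']
    simp only [Sum.elim_inl, Sum.elim_inr]
    constructor
    · intro hadj
      obtain ⟨x, hx1, hx2⟩ := (M.adj _ _).1 hadj.symm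
      refine ⟨⟨x, by rw [hx1]; exact b.2⟩, ?_, ?_⟩
      · exact Subtype.ext (by rw [hv]; exact hx2)
      · exact Subtype.ext (by rw [hf]; exact hx1)
    · rintro ⟨x, hx1, hx2⟩
      apply SimpleGraph.Adj.symm
      rw [M.adj]
      refine ⟨x.1, ?_, ?_⟩
      · rw [← hf, hx2]
      · rw [← hv, hx1]
  · intro a b
    rw [hG']
    simp only [Sum.elim_inr]
    exact hT.indep _ a.2 _ b.2
  · intro a b
    rw [hG']
    simp only [Sum.elim_inl]
    intro hadj
    obtain ⟨u, hu1, hu2⟩ := (M.adj _ _).1 hadj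
    have ha : M.w u ∉ I := by rw [hu1]; exact a.2
    have hb : M.w (M.a0 u) ∉ I := by rw [hu2]; exact b.2
    have h3 := hT.t3 u ha hb
    have e1 : M.a0 (M.a0 (M.a1 u)) = M.a1 u := M.i0 _
    have e2 : M.a0 (M.a1 (M.a0 (M.a0 (M.a1 u)))) = M.a0 u := by rw [e1, M.i1]
    have h1 := hT.t1 (M.a0 (M.a1 u)) h3 (by rw [e2]; exact hb)
    rw [e2] at h1
    refine ⟨⟨M.a0 (M.a1 u), h3⟩, ?_, ?_⟩
    · apply Subtype.ext
      rw [hv]
      show M.w (M.a0 (M.a0 (M.a1 u))) = a.1
      rw [e1, M.w1, hu1]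
    · apply Subtype.ext
      rw [hv, h0]
      show M.w (M.a0 (M.a1 (M.a0 (M.a1 u)))) = b.1
      have h2 : M.a0 (M.a1 (M.a0 (M.a1 u))) = M.a1 (M.a0 u) := by
        rw [← h1, M.i1]
      rw [h2, M.w1, hu2]

end Asm

/-- transport of 4-connectivity along an equivalence of the vertex sets -/
theorem fourConn_comap {W U : Type} [Fintype W] [Fintype U] {G : SimpleGraph W}
    (h : FourConn G) (e : U ≃ W) : FourConn (G.comap e) := by
  classical
  refine ⟨by rw [Fintype.card_congr e]; exact h.1, ?_⟩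
  intro S hS
  have h2 := h.2 (S.map e.toEmbedding) (by rw [Finset.card_map]; exact hS)
  let φ : (G.comap e).induce ((S : Set U)ᶜ) ≃g
      G.induce (((S.map e.toEmbedding : Finset W) : Set W)ᶜ) :=
    { toEquiv := e.subtypeEquiv (by
        intro a
        simp)
      map_rel_iff' := by
        intro a b
        rfl }
  exact φ.connected_iff.2 h2

theorem isHamiltonian_comap {W U : Type} [Fintype W] [Fintype U] [DecidableEq W] [DecidableEq U]
    {G : SimpleGraph W} (e : U ≃ W) (h : (G.comap e).IsHamiltonian) : G.IsHamiltonian := by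
  intro hc
  obtain ⟨a, p, hp⟩ := h (by rw [Fintype.card_congr e]; exact hc)
  let φ : G.comap e →g G := ⟨e, fun {a b} hab => hab⟩
  exact ⟨φ a, p.map φ, hp.map (f := φ) e.bijective⟩

/-- the whole theorem from the modules -/
theorem assemble (hLA : S_LA) (hTC : S_TC) (hHALL : S_HALL) (hHC : S_HC) (hCNT : S_CNT)
    (hDM : S_DM) (hCORE : S_CORE) (W Ω : Type) [Fintype W] [DecidableEq W] [Finite Ω]
    (G : SimpleGraph W) (M : GMap G Ω) (I : Set W) (h4 : FourConn G) (hE : M.EulerNonneg)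
    (hI : ∀ u ∈ I, ∀ v ∈ I, ¬ G.Adj u v) (hc : Nat.card W ≤ 2 * I.ncard) :
    G.IsHamiltonian := by
  classical
  have hT := hCNT W Ω G M I h4 hE hI hc
  have hconn : G.Connected := by
    have h := h4.2 ∅ (by simp)
    let φ : G.induce (((∅ : Finset W) : Set W)ᶜ) ≃g G :=
      { toFun := fun x => x.1
        invFun := fun x => ⟨x, by simp⟩
        left_inv := fun _ => rfl
        right_inv := fun _ => rfl
        map_rel_iff' := Iff.rfl }
    exact φ.connected_iff.1 h
  obtain ⟨m, h0, _, hv, hf⟩ := hDM W Ω G M I hconn hT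
  let e : {u : W // u ∉ I} ⊕ {u : W // u ∈ I} ≃ W :=
    (Equiv.sumComm _ _).trans (Equiv.Set.sumCompl I)
  have he : ∀ p, e p = Sum.elim Subtype.val Subtype.val p := by
    rintro (a | a)
    · rfl
    · rfl
  have := Fintype.ofFinite {u : W // u ∉ I}
  have := Fintype.ofFinite {u : W // u ∈ I}
  have hB : m.Btw (G.comap e) := by
    apply Asm.btw M hT m h0 hv hf
    intro p q
    rw [SimpleGraph.comap_adj, he, he]
  have h4' : FourConn (G.comap e) := fourConn_comap h4 e
  have hTo := hTC _ _ _ m _ hB h4'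
  obtain ⟨C, hC⟩ := hCORE _ _ _ m (hHALL _ _ _ m (fun Y hY => by
    have h1 := hLA _ _ _ m Y hY
    have h2 := hTo Y hY
    omega))
  exact isHamiltonian_comap e (hHC _ _ _ m (G.comap e) C hB h4'.1 hC)

end KR
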