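import Mathlib
import Pool.Agent.KR.St

/-!
# Module KR_CNT: double counting of flags
-/

set_option autoImplicit false

namespace KR

open Function

namespace KR_CNT

/-! ### Orbits of two involutions without fixed points -/

section Dih

variable {Ω : Type}

/-- two involutions without fixed points -/
structure Inv2 (p q : Ω → Ω) : Prop where
  hp : ∀ x, p (p x) = x
  hq : ∀ x, q (q x) = x
  np : ∀ x, p x ≠ x
  nq : ∀ x, q x ≠ x

/-- `S` is the orbit of `x` -/
structure Orb (p q : Ω → Ω) (x : Ω) (S : Set Ω) : Prop where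
  mem : x ∈ S
  cp : ∀ y ∈ S, p y ∈ S
  cq : ∀ y ∈ S, q y ∈ S
  min : ∀ T : Set Ω, x ∈ T → (∀ y ∈ T, p y ∈ T) → (∀ y ∈ T, q y ∈ T) → S ⊆ T

variable {p q : Ω → Ω} {x : Ω} {S : Set Ω}

theorem Inv2.ip (h : Inv2 p q) {a b : Ω} (e : p a = b) : a = p b := by
  rw [← e, h.hp]

theorem Inv2.iq (h : Inv2 p q) {a b : Ω} (e : q a = b) : a = q b := by
  rw [← e, h.hq]

theorem Inv2.jp (h : Inv2 p q) {a b : Ω} (e : p a = p b) : a = b := by
  rw [← h.hp a, e, h.hp]

theorem Inv2.jq (h : Inv2 p q) {a b : Ω} (e : q a = q b) : a = b := by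
  rw [← h.hq a, e, h.hq]

theorem orb_le (hS : Orb p q x S) (T : Finset Ω) (hx : x ∈ T) (h1 : ∀ y ∈ T, p y ∈ T)
    (h2 : ∀ y ∈ T, q y ∈ T) : S.ncard ≤ T.card := by
  have h : S ⊆ (T : Set Ω) := hS.min _ hx h1 h2
  have h3 := Set.ncard_le_ncard h (T.finite_toSet)
  rwa [Set.ncard_coe_finset] at h3

open Classical in
theorem le2 (h : Inv2 p q) (hS : Orb p q x S) (e : p x = q x) : S.ncard ≤ 2 := by
  refine (orb_le hS {x, p x} (by simp) ?_ ?_).trans Finset.card_le_two
  · intro y hy
    simp only [Finset.mem_insert, Finset.mem_singleton] at hy ⊢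
    rcases hy with rfl | rfl
    · exact Or.inr rfl
    · exact Or.inl (h.hp _)
  · intro y hy
    simp only [Finset.mem_insert, Finset.mem_singleton] at hy ⊢
    rcases hy with rfl | rfl
    · exact Or.inr e.symm
    · left
      rw [e, h.hq]

open Classical in
theorem le4 (h : Inv2 p q) (hS : Orb p q x S) (e : q (p x) = p (q x)) : S.ncard ≤ 4 := by
  refine (orb_le hS {x, p x, q x, q (p x)} (by simp) ?_ ?_).trans Finset.card_le_four
  · intro y hy
    simp only [Finset.mem_insert, Finset.mem_singleton] at hy ⊢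
    rcases hy with rfl | rfl | rfl | rfl
    · simp
    · simp [h.hp]
    · simp [e]
    · simp [e, h.hp]
  · intro y hy
    simp only [Finset.mem_insert, Finset.mem_singleton] at hy ⊢
    rcases hy with rfl | rfl | rfl | rfl
    · simp
    · simp
    · simp [h.hq]
    · simp [h.hq]

open Classical in
theorem le6 (h : Inv2 p q) (hS : Orb p q x S) (e : p (q (p x)) = q (p (q x))) :
    S.ncard ≤ 6 := by
  refine (orb_le hS {x, p x, q x, q (p x), p (q x), p (q (p x))} (by simp) ?_ ?_).trans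
    Finset.card_le_six
  · intro y hy
    simp only [Finset.mem_insert, Finset.mem_singleton] at hy ⊢
    rcases hy with rfl | rfl | rfl | rfl | rfl | rfl
    · simp
    · simp [h.hp]
    · simp
    · simp
    · simp [h.hp]
    · simp [h.hp]
  · intro y hy
    simp only [Finset.mem_insert, Finset.mem_singleton] at hy ⊢
    rcases hy with rfl | rfl | rfl | rfl | rfl | rfl
    · simp
    · simp
    · simp [h.hq]
    · simp [h.hq]
    · simp [e]
    · simp [e, h.hq]

theorem list_le (hfin : S.Finite) (l : List Ω) (hl : l.Nodup) (h : ∀ y ∈ l, y ∈ S) :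
    l.length ≤ S.ncard := by
  classical
  rw [← List.toFinset_card_of_nodup hl, ← Set.ncard_coe_finset]
  refine Set.ncard_le_ncard ?_ hfin
  intro y hy
  exact h y (by simpa using hy)

theorem list_mem (hfin : S.Finite) (l : List Ω) (hl : l.Nodup) (h : ∀ y ∈ l, y ∈ S)
    (hc : S.ncard ≤ l.length) {y : Ω} (hy : y ∈ S) : y ∈ l := by
  by_contra hne
  have h1 := list_le hfin (y :: l) (List.nodup_cons.2 ⟨hne, hl⟩) (by
    intro z hz
    rcases List.mem_cons.1 hz with rfl | hz
    · exact hy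
    · exact h z hz)
  rw [List.length_cons] at h1
  omega

/-- six different elements -/
theorem nodup6 (h : Inv2 p q) (e1 : p x ≠ q x) (e2 : q (p x) ≠ p (q x)) :
    [x, p x, q x, q (p x), p (q x), p (q (p x))].Nodup := by
  have f1 : x ≠ p x := (h.np x).symm
  have f2 : x ≠ q x := (h.nq x).symm
  have f3 : x ≠ q (p x) := fun e => e1 (h.iq e.symm)
  have f4 : x ≠ p (q x) := fun e => e1 (h.ip e.symm).symm
  have f5 : x ≠ p (q (p x)) := fun e => h.nq (p x) (h.ip e.symm)
  have f6 : p x ≠ q (p x) := (h.nq _).symm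
  have f7 : p x ≠ p (q x) := fun e => f2 (h.jp e)
  have f8 : p x ≠ p (q (p x)) := fun e => f3 (h.jp e)
  have f9 : q x ≠ q (p x) := fun e => f1 (h.jq e)
  have f10 : q x ≠ p (q x) := (h.np _).symm
  have f11 : q x ≠ p (q (p x)) := fun e => e2 (h.ip e.symm)
  have f12 : q (p x) ≠ p (q (p x)) := (h.np _).symm
  have f13 : p (q x) ≠ p (q (p x)) := fun e => f1 (h.jq (h.jp e))
  simp [f1, f2, f3, f4, f5, f6, f7, f8, f9, f10, f11, f12, f13, e1, e2]

theorem ge6 (h : Inv2 p q) (hS : Orb p q x S) (hfin : S.Finite) (e1 : p x ≠ q x)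
    (e2 : q (p x) ≠ p (q x)) : 6 ≤ S.ncard := by
  refine list_le hfin _ (nodup6 h e1 e2) ?_
  have h0 := hS.mem
  have h1 := hS.cp _ h0
  have h2 := hS.cq _ h0
  intro y hy
  simp only [List.mem_cons, List.not_mem_nil, or_false] at hy
  rcases hy with rfl | rfl | rfl | rfl | rfl | rfl
  · exact h0
  · exact h1
  · exact h2
  · exact hS.cq _ h1
  · exact hS.cp _ h2
  · exact hS.cp _ (hS.cq _ h1)

theorem mem6 (hS : Orb p q x S) :
    ∀ y ∈ [x, p x, q x, q (p x), p (q x), p (q (p x))], y ∈ S := by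
  have h0 := hS.mem
  have h1 := hS.cp _ h0
  have h2 := hS.cq _ h0
  intro y hy
  simp only [List.mem_cons, List.not_mem_nil, or_false] at hy
  rcases hy with rfl | rfl | rfl | rfl | rfl | rfl
  · exact h0
  · exact h1
  · exact h2
  · exact hS.cq _ h1
  · exact hS.cp _ h2
  · exact hS.cp _ (hS.cq _ h1)

/-- orbits with six elements -/
theorem eq6 (h : Inv2 p q) (hS : Orb p q x S) (hfin : S.Finite) (hc : S.ncard = 6) :
    q (p (q x)) = p (q (p x)) := by
  have e1 : p x ≠ q x := fun e => by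
    have := le2 h hS e
    omega
  have e2 : q (p x) ≠ p (q x) := fun e => by
    have := le4 h hS e
    omega
  have h1 := list_mem hfin _ (nodup6 h e1 e2) (mem6 hS) (by simp [hc])
    (hS.cq _ (hS.cp _ (hS.cq _ hS.mem)))
  simp only [List.mem_cons, List.not_mem_nil, or_false] at h1
  rcases h1 with e | e | e | e | e | e
  · exact absurd (h.iq e) (h.np (q x))
  · exact absurd (h.iq e).symm e2
  · exact absurd (h.jq e).symm (fun e' => e1 (h.ip e'.symm).symm)
  · exact absurd (h.jp (h.jq e)) (h.nq x)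
  · exact absurd e (h.nq _)
  · exact e

/-- orbits with eight elements -/
theorem eq8 (h : Inv2 p q) (hS : Orb p q x S) (hfin : S.Finite) (hc : S.ncard = 8) :
    p (q (p (q x))) = q (p (q (p x))) ∧ p (q (p (q x))) ≠ x := by
  have e1 : p x ≠ q x := fun e => by
    have := le2 h hS e
    omega
  have e2 : q (p x) ≠ p (q x) := fun e => by
    have := le4 h hS e
    omega
  have e3 : p (q (p x)) ≠ q (p (q x)) := fun e => by
    have := le6 h hS e
    omega
  have f1 : x ≠ p x := (h.np x).symm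
  have f2 : x ≠ q x := (h.nq x).symm
  have f3 : x ≠ q (p x) := fun e => e1 (h.iq e.symm)
  have f4 : x ≠ p (q x) := fun e => e1 (h.ip e.symm).symm
  have f5 : x ≠ p (q (p x)) := fun e => h.nq (p x) (h.ip e.symm)
  have f6 : p x ≠ q (p x) := (h.nq _).symm
  have f7 : p x ≠ p (q x) := fun e => f2 (h.jp e)
  have f8 : p x ≠ p (q (p x)) := fun e => f3 (h.jp e)
  have f9 : q x ≠ q (p x) := fun e => f1 (h.jq e)
  have f10 : q x ≠ p (q x) := (h.np _).symm
  have f11 : q x ≠ p (q (p x)) := fun e => e2 (h.ip e.symm)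
  have f12 : q (p x) ≠ p (q (p x)) := (h.np _).symm
  have f13 : p (q x) ≠ p (q (p x)) := fun e => f1 (h.jq (h.jp e))
  -- the element `q p q x`
  have g1 : x ≠ q (p (q x)) := fun e => h.np (q x) (h.iq e.symm)
  have g2 : p x ≠ q (p (q x)) := fun e => e2 (h.iq e.symm).symm
  have g3 : q x ≠ q (p (q x)) := fun e => f4 (h.jq e)
  have g4 : q (p x) ≠ q (p (q x)) := fun e => f2 (h.jp (h.jq e))
  have g5 : p (q x) ≠ q (p (q x)) := (h.nq _).symm
  -- the element `q p q p x`
  have k1 : x ≠ q (p (q (p x))) := fun e => f11 (h.iq e.symm).symm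
  have k2 : p x ≠ q (p (q (p x))) := fun e => f12 (h.iq e.symm).symm
  have k3 : q x ≠ q (p (q (p x))) := fun e => f5 (h.jq e)
  have k4 : q (p x) ≠ q (p (q (p x))) := fun e => f8 (h.jq e)
  have k5 : p (q x) ≠ q (p (q (p x))) := fun e => e3 (h.iq e.symm)
  have k6 : p (q (p x)) ≠ q (p (q (p x))) := (h.nq _).symm
  have k7 : q (p (q x)) ≠ q (p (q (p x))) := fun e => f13 (h.jq e)
  have hnd : [x, p x, q x, q (p x), p (q x), p (q (p x)), q (p (q x)),
      q (p (q (p x)))].Nodup := by
    simp [f1, f2, f3, f4, f5, f6, f7, f8, f9, f10, f11, f12, f13, e1, e2, e3, g1, g2, g3, g4, g5,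
      k1, k2, k3, k4, k5, k6, k7]
  have h0 := hS.mem
  have h1 := hS.cp _ h0
  have h2 := hS.cq _ h0
  have h3 := hS.cq _ h1
  have h4 := hS.cp _ h2
  have h5 := hS.cp _ h3
  have h6 := hS.cq _ h4
  have h7 := hS.cq _ h5
  have h8 := hS.cp _ h6
  have hmem := list_mem hfin _ hnd (by
    intro y hy
    simp only [List.mem_cons, List.not_mem_nil, or_false] at hy
    rcases hy with rfl | rfl | rfl | rfl | rfl | rfl | rfl | rfl
    · exact h0
    · exact h1
    · exact h2
    · exact h3
    · exact h4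
    · exact h5
    · exact h6
    · exact h7) (by simp [hc]) h8
  have key : p (q (p (q x))) = q (p (q (p x))) := by
    simp only [List.mem_cons, List.not_mem_nil, or_false] at hmem
    rcases hmem with e | e | e | e | e | e | e | e
    · exact absurd (h.ip e).symm g2
    · exact absurd (h.jp e).symm g1
    · exact absurd (h.ip e).symm g5
    · exact absurd (h.ip e).symm e3
    · exact absurd (h.jp e).symm g3
    · exact absurd (h.jp e).symm g4
    · exact absurd e (h.np _)
    · exact e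
  refine ⟨key, ?_⟩
  rw [key]
  exact k1.symm

end Dih

theorem even_card {Ω : Type} (s : Finset Ω) (g : Ω → Ω) (hg : ∀ a ∈ s, g a ∈ s)
    (hi : ∀ a, g (g a) = a) (hn : ∀ a, g a ≠ a) : Even s.card := by
  have h : ∑ _a ∈ s, (1 : ZMod 2) = 0 := by
    refine Finset.sum_involution (fun a _ => g a) ?_ ?_ ?_ ?_
    · intro a _
      decide
    · intro a _ _
      exact hn a
    · intro a ha
      exact hg a ha
    · intro a _
      exact hi a
  rw [Finset.sum_const, nsmul_eq_mul, mul_one] at h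
  exact (ZMod.natCast_eq_zero_iff_even).1 h

/-! ### Maps -/

section Map

variable {W : Type} {G : SimpleGraph W} {Ω : Type}

theorem gadj (M : GMap G Ω) (x : Ω) : G.Adj (M.w x) (M.w (M.a0 x)) :=
  (M.adj _ _).2 ⟨x, rfl, rfl⟩

theorem n0 (M : GMap G Ω) (x : Ω) : M.a0 x ≠ x := by
  intro h
  have h1 := gadj M x
  rw [h] at h1
  exact h1.ne rfl

theorem inv01 (M : GMap G Ω) : Inv2 M.a0 M.a1 := ⟨M.i0, M.i1, n0 M, M.n1⟩

theorem inv12 (M : GMap G Ω) : Inv2 M.a1 M.a2 := ⟨M.i1, M.i2, M.n1, M.n2⟩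

/-- the flags at a vertex -/
def Vx (M : GMap G Ω) (i : W) : Set Ω := {x | M.w x = i}

/-- the face of a flag -/
def fc (M : GMap G Ω) (x : Ω) : M.Face := Quot.mk M.Fr x

/-- the flags of a face -/
def Fx (M : GMap G Ω) (φ : M.Face) : Set Ω := {x | fc M x = φ}

theorem mk0 (M : GMap G Ω) (x : Ω) : fc M (M.a0 x) = fc M x := by
  have h : M.Fr x (M.a0 x) := Or.inl rfl
  exact (Quot.sound h).symm

theorem mk1 (M : GMap G Ω) (x : Ω) : fc M (M.a1 x) = fc M x := by
  have h : M.Fr x (M.a1 x) := Or.inr rfl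
  exact (Quot.sound h).symm

theorem orbF (M : GMap G Ω) (x : Ω) (φ : M.Face) (hx : fc M x = φ) :
    Orb M.a0 M.a1 x (Fx M φ) := by
  refine ⟨hx, ?_, ?_, ?_⟩
  · intro y hy
    exact (mk0 M y).trans hy
  · intro y hy
    exact (mk1 M y).trans hy
  · intro T hT h0 h1 y hy
    let g : M.Face → Prop := Quot.lift (fun z => z ∈ T) (by
      rintro a b (rfl | rfl)
      · refine propext ⟨h0 a, fun h => ?_⟩
        have := h0 _ h
        rwa [M.i0] at this
      · refine propext ⟨h1 a, fun h => ?_⟩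
        have := h1 _ h
        rwa [M.i1] at this)
    have hgx : g φ := by
      rw [← hx]
      exact hT
    have hy' : fc M y = φ := hy
    rw [← hy'] at hgx
    exact hgx

theorem orbV (M : GMap G Ω) (x : Ω) (i : W) (hx : M.w x = i) :
    Orb M.a1 M.a2 x (Vx M i) := by
  refine ⟨hx, ?_, ?_, ?_⟩
  · intro y hy
    exact (M.w1 y).trans hy
  · intro y hy
    exact (M.w2 y).trans hy
  · intro T hT h1 h2 y hy
    have hy' : M.w y = i := hy
    refine M.vtx (fun z => z ∈ T) ?_ ?_ x y (hx.trans hy'.symm) hT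
    · intro z
      refine ⟨fun h => ?_, h1 z⟩
      have := h1 _ h
      rwa [M.i1] at this
    · intro z
      refine ⟨fun h => ?_, h2 z⟩
      have := h2 _ h
      rwa [M.i2] at this

/-- the degree of a vertex of a 4-connected graph -/
theorem deg4 [Fintype W] (hG : FourConn G) (i : W) : 4 ≤ (G.neighborSet i).ncard := by
  classical
  by_contra hlt
  obtain ⟨h5, hS⟩ := hG
  obtain ⟨S, hSdef⟩ : ∃ S : Finset W, S = (Set.toFinite (G.neighborSet i)).toFinset := ⟨_, rfl⟩
  have hmS : ∀ v, v ∈ S ↔ G.Adj i v := by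
    intro v
    rw [hSdef, Set.Finite.mem_toFinset]
    exact Iff.rfl
  have hcard : S.card < 4 := by
    rw [Set.ncard_eq_toFinset_card _ (Set.toFinite _), ← hSdef] at hlt
    omega
  have hi : i ∉ S := by
    rw [hmS]
    exact G.irrefl
  have hj : ∃ j, j ∉ insert i S := by
    by_contra hcon
    push Not at hcon
    have h1 : (Finset.univ : Finset W) ⊆ insert i S := fun j _ => hcon j
    have h2 := Finset.card_le_card h1
    have h3 := Finset.card_insert_le i S
    rw [Finset.card_univ] at h2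
    omega
  obtain ⟨j, hj⟩ := hj
  rw [Finset.mem_insert, not_or] at hj
  have hc := (hS S hcard).preconnected
    ⟨i, by simpa using hi⟩ ⟨j, by simpa using hj.2⟩
  obtain ⟨wk⟩ := hc
  cases wk with
  | nil => exact hj.1 rfl
  | @cons _ v _ hadj _ =>
    have h1 : G.Adj i v.1 := hadj
    have h2 : v.1 ∈ S := (hmS _).2 h1
    exact v.2 (by simpa using h2)

theorem ge8 [Fintype W] [Finite Ω] (M : GMap G Ω) (hG : FourConn G) (i : W) :
    8 ≤ (Vx M i).ncard := by
  classical
  have h1 : ∀ v : G.neighborSet i, ∃ x, M.w x = i ∧ M.w (M.a0 x) = v := fun v =>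
    (M.adj _ _).1 v.2
  choose F hF1 hF2 using h1
  have h2 := deg4 hG i
  have hinj : Injective (fun vb : G.neighborSet i × Bool =>
      (⟨if vb.2 then F vb.1 else M.a2 (F vb.1), by
        by_cases h : vb.2 = true
        · simp only [h, if_true]
          exact hF1 vb.1
        · simp only [h]
          exact (M.w2 _).trans (hF1 vb.1)⟩ : Vx M i)) := by
    rintro ⟨v, b⟩ ⟨v', b'⟩ h
    have h3 := congrArg Subtype.val h
    simp only at h3
    have hend : ∀ (v : G.neighborSet i) (b : Bool),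
        M.w (M.a0 (if b then F v else M.a2 (F v))) = v := by
      intro v b
      cases b
      · simp only [Bool.false_eq_true, if_false]
        rw [M.c02, M.w2]
        exact hF2 v
      · simp only [if_true]
        exact hF2 v
    have h4 : v = v' := by
      apply Subtype.ext
      rw [← hend v b, ← hend v' b', h3]
    subst h4
    congr 1
    cases b <;> cases b'
    · rfl
    · simp only [Bool.false_eq_true, if_false, if_true] at h3
      exact absurd h3 (M.n2 _)
    · simp only [Bool.false_eq_true, if_false, if_true] at h3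
      exact absurd h3.symm (M.n2 _)
    · rfl
  have h3 := Nat.card_le_card_of_injective _ hinj
  rw [Nat.card_prod] at h3
  have h4 : Nat.card Bool = 2 := by simp
  rw [h4] at h3
  have h5 : Nat.card (G.neighborSet i) = (G.neighborSet i).ncard := rfl
  have h6 : Nat.card (Vx M i) = (Vx M i).ncard := rfl
  rw [h5, h6] at h3
  omega

theorem ne01 (M : GMap G Ω) (x : Ω) : M.a0 x ≠ M.a1 x := by
  intro h
  have h1 := gadj M x
  rw [h, M.w1] at h1
  exact h1.ne rfl

theorem t4 [Fintype W] [Finite Ω] (M : GMap G Ω) (hG : FourConn G) (x : Ω) :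
    M.a0 (M.a1 x) ≠ M.a1 (M.a0 x) := by
  intro h
  have h1 : M.w (M.a0 x) = M.w (M.a0 (M.a1 x)) := by
    rw [h, M.w1]
  have h2 : M.w x = M.w (M.a1 x) := (M.w1 x).symm
  have h8 := ge8 M hG (M.w x)
  rcases M.uniq x (M.a1 x) h2 h1 with h3 | h3
  · exact M.n1 x h3
  · have := le2 (inv12 M) (orbV M x _ rfl) h3
    omega

/-- the four properties of the numbers of flags -/
theorem face_num [Fintype W] [Finite Ω] (M : GMap G Ω) (hG : FourConn G) (I : Set W)
    (hI : ∀ u ∈ I, ∀ v ∈ I, ¬ G.Adj u v) (φ : M.Face) :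
    {x | x ∈ Fx M φ ∧ M.w x ∈ I}.ncard + 4 ≤ (Fx M φ).ncard ∧
    ({x | x ∈ Fx M φ ∧ M.w x ∈ I}.ncard + 4 = (Fx M φ).ncard →
      ({x | x ∈ Fx M φ ∧ M.w x ∈ I}.ncard = 2 ∧ (Fx M φ).ncard = 6) ∨
      ({x | x ∈ Fx M φ ∧ M.w x ∈ I}.ncard = 4 ∧ (Fx M φ).ncard = 8)) := by
  classical
  have : Fintype Ω := Fintype.ofFinite Ω
  obtain ⟨x, hx⟩ := Quot.exists_rep φ
  have h6 : 6 ≤ (Fx M φ).ncard :=
    ge6 (inv01 M) (orbF M x φ hx) (Set.toFinite _) (ne01 M x) (t4 M hG x).symm
  set A : Set Ω := {x | x ∈ Fx M φ ∧ M.w x ∈ I} with hA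
  have hev : Even (Fx M φ).ncard := by
    rw [Set.ncard_eq_toFinset_card']
    refine even_card _ M.a0 ?_ M.i0 (n0 M)
    intro a ha
    rw [Set.mem_toFinset] at ha ⊢
    exact (mk0 M a).trans ha
  have hevA : Even A.ncard := by
    rw [Set.ncard_eq_toFinset_card']
    refine even_card _ M.a1 ?_ M.i1 M.n1
    intro a ha
    rw [Set.mem_toFinset] at ha ⊢
    refine ⟨(mk1 M a).trans ha.1, ?_⟩
    rw [M.w1]
    exact ha.2
  have h2 : 2 * A.ncard ≤ (Fx M φ).ncard := by
    have hinj : Injective M.a0 := fun a b h => (inv01 M).jp h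
    have hd : Disjoint A (M.a0 '' A) := by
      rw [Set.disjoint_left]
      rintro a ha ⟨b, hb, rfl⟩
      exact hI _ hb.2 _ ha.2 (gadj M b)
    have hu : (A ∪ M.a0 '' A).ncard = A.ncard + A.ncard := by
      rw [Set.ncard_union_eq hd (Set.toFinite _) (Set.toFinite _),
        Set.ncard_image_of_injective _ hinj]
    have hsub : A ∪ M.a0 '' A ⊆ Fx M φ := by
      rintro a (ha | ⟨b, hb, rfl⟩)
      · exact ha.1
      · exact (mk0 M b).trans hb.1
    have := Set.ncard_le_ncard hsub (Set.toFinite _)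
    omega
  obtain ⟨k, hk⟩ := hev
  obtain ⟨l, hl⟩ := hevA
  constructor
  · omega
  · intro h
    omega

end Map

end KR_CNT

open KR_CNT in
/-- MODULE KR_CNT -/
theorem t_CNT : S_CNT := by
  classical
  intro W Ω _ _ G M I hG hE hI hn
  have : Fintype Ω := Fintype.ofFinite Ω
  have : Finite M.Face := Quot.finite _
  have : Fintype M.Face := Fintype.ofFinite _
  -- the sums
  have hV : 8 * I.ncard ≤ ∑ i ∈ I.toFinset, (Vx M i).ncard := by
    rw [Set.ncard_eq_toFinset_card', mul_comm, ← smul_eq_mul, ← Finset.sum_const]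
    exact Finset.sum_le_sum fun i _ => ge8 M hG i
  have hfib : ∑ i ∈ I.toFinset, (Vx M i).ncard =
      ∑ φ : M.Face, {x | x ∈ Fx M φ ∧ M.w x ∈ I}.ncard := by
    have h1 : (Finset.univ.filter fun x : Ω => M.w x ∈ I).card =
        ∑ i ∈ I.toFinset, (Vx M i).ncard := by
      rw [Finset.card_eq_sum_card_fiberwise (f := M.w) (t := I.toFinset)]
      · refine Finset.sum_congr rfl fun i hi => ?_
        rw [Set.ncard_eq_toFinset_card']
        congr 1
        ext x
        simp only [Finset.mem_filter, Finset.mem_univ, true_and, Set.mem_toFinset, Vx,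
          Set.mem_ofPred_eq]
        rw [Set.mem_toFinset] at hi
        constructor
        · exact fun h => h.2
        · rintro rfl
          exact ⟨hi, rfl⟩
      · intro x hx
        simpa using hx
    have h2 : (Finset.univ.filter fun x : Ω => M.w x ∈ I).card =
        ∑ φ : M.Face, {x | x ∈ Fx M φ ∧ M.w x ∈ I}.ncard := by
      rw [Finset.card_eq_sum_card_fiberwise (f := fc M)
        (t := Finset.univ)]
      · refine Finset.sum_congr rfl fun φ _ => ?_
        rw [Set.ncard_eq_toFinset_card']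
        congr 1
        ext x
        simp only [Finset.mem_filter, Finset.mem_univ, true_and, Set.mem_toFinset, Fx,
          Set.mem_ofPred_eq]
        exact and_comm
      · intro x _
        exact Finset.mem_univ _
    rw [← h1, h2]
  have hall : Nat.card Ω = ∑ φ : M.Face, (Fx M φ).ncard := by
    rw [Nat.card_eq_fintype_card, ← Finset.card_univ,
      Finset.card_eq_sum_card_fiberwise (f := fc M)
        (t := Finset.univ)]
    · refine Finset.sum_congr rfl fun φ _ => ?_
      rw [Set.ncard_eq_toFinset_card']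
      congr 1
      ext x
      simp only [Finset.mem_filter, Finset.mem_univ, true_and, Set.mem_toFinset, Fx,
        Set.mem_ofPred_eq]
    · intro x _
      exact Finset.mem_univ _
  have hle : ∀ φ ∈ (Finset.univ : Finset M.Face),
      {x | x ∈ Fx M φ ∧ M.w x ∈ I}.ncard + 4 ≤ (Fx M φ).ncard := fun φ _ =>
    (face_num M hG I hI φ).1
  have hsum := Finset.sum_le_sum hle
  rw [Finset.sum_add_distrib, Finset.sum_const, smul_eq_mul, Finset.card_univ,
    ← Nat.card_eq_fintype_card] at hsum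
  have hE' : Nat.card Ω ≤ 4 * (Nat.card W + Nat.card M.Face) := hE
  -- equalities
  have hhalf : Nat.card W = 2 * I.ncard := by omega
  have hVe : ∀ i ∈ I, (Vx M i).ncard = 8 := by
    have h1 : ∑ i ∈ I.toFinset, 8 = ∑ i ∈ I.toFinset, (Vx M i).ncard := by
      rw [Finset.sum_const, smul_eq_mul, ← Set.ncard_eq_toFinset_card']
      omega
    have h2 := (Finset.sum_eq_sum_iff_of_le fun i _ => ge8 M hG i).1 h1
    intro i hi
    exact (h2 i (Set.mem_toFinset.2 hi)).symm
  have hFe : ∀ φ : M.Face, {x | x ∈ Fx M φ ∧ M.w x ∈ I}.ncard + 4 = (Fx M φ).ncard := by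
    have h1 : ∑ φ : M.Face, ({x | x ∈ Fx M φ ∧ M.w x ∈ I}.ncard + 4) =
        ∑ φ : M.Face, (Fx M φ).ncard := by
      rw [Finset.sum_add_distrib, Finset.sum_const, smul_eq_mul, Finset.card_univ,
        ← Nat.card_eq_fintype_card]
      omega
    have h2 := (Finset.sum_eq_sum_iff_of_le hle).1 h1
    intro φ
    exact h2 φ (Finset.mem_univ _)
  have hF : ∀ φ : M.Face,
      ({x | x ∈ Fx M φ ∧ M.w x ∈ I}.ncard = 2 ∧ (Fx M φ).ncard = 6) ∨
      ({x | x ∈ Fx M φ ∧ M.w x ∈ I}.ncard = 4 ∧ (Fx M φ).ncard = 8) := fun φ =>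
    (face_num M hG I hI φ).2 (hFe φ)
  have h40 := t4 M hG
  -- in a face of length eight one of `y`, `a0 y` is at `I`
  have h8 : ∀ φ : M.Face, {x | x ∈ Fx M φ ∧ M.w x ∈ I}.ncard = 4 → (Fx M φ).ncard = 8 →
      ∀ y ∈ Fx M φ, M.w y ∉ I → M.w (M.a0 y) ∈ I := by
    intro φ h1 h2 y hy hyI
    set A : Set Ω := {x | x ∈ Fx M φ ∧ M.w x ∈ I} with hA
    have hinj : Injective M.a0 := fun a b h => (inv01 M).jp h
    have hd : Disjoint A (M.a0 '' A) := by
      rw [Set.disjoint_left]
      rintro a ha ⟨b, hb, rfl⟩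
      exact hI _ hb.2 _ ha.2 (gadj M b)
    have hu : (A ∪ M.a0 '' A).ncard = A.ncard + A.ncard := by
      rw [Set.ncard_union_eq hd (Set.toFinite _) (Set.toFinite _),
        Set.ncard_image_of_injective _ hinj]
    have hsub : A ∪ M.a0 '' A ⊆ Fx M φ := by
      rintro a (ha | ⟨b, hb, rfl⟩)
      · exact ha.1
      · exact (mk0 M b).trans hb.1
    have heq : A ∪ M.a0 '' A = Fx M φ :=
      Set.eq_of_subset_of_ncard_le hsub (by omega) (Set.toFinite _)
    rw [← heq] at hy
    rcases hy with h | ⟨b, hb, hb'⟩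
    · exact absurd h.2 hyI
    · rw [← hb', M.i0]
      exact hb.2
  have hxI : ∀ x, M.w x ∈ I → M.w (M.a0 x) ∉ I := fun x hx h => hI _ hx _ h (gadj M x)
  refine ⟨hhalf, hI, ?_, ?_, ?_, h40, ?_⟩
  · -- t1
    intro x hx hx'
    rcases hF (fc M x) with ⟨_, h6⟩ | ⟨h4, h8'⟩
    · exact eq6 (inv01 M) (orbF M x _ rfl) (Set.toFinite _) h6
    · exfalso
      apply hx'
      refine h8 _ h4 h8' (M.a1 (M.a0 x)) ?_ ?_
      · exact (mk1 M _).trans (mk0 M x)
      · rw [M.w1]
        exact hxI x hx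
  · -- t2
    intro x hx hx'
    rcases hF (fc M x) with ⟨h2, _⟩ | ⟨_, h8'⟩
    · exfalso
      have hnd : [x, M.a1 x, M.a0 (M.a1 (M.a0 x))].Nodup := by
        have f1 : x ≠ M.a1 x := (M.n1 x).symm
        have f2 : x ≠ M.a0 (M.a1 (M.a0 x)) := fun e =>
          M.n1 (M.a0 x) ((inv01 M).ip e.symm)
        have f3 : M.a1 x ≠ M.a0 (M.a1 (M.a0 x)) := fun e =>
          h40 x ((inv01 M).ip e.symm).symm
        simp [f1, f2, f3]
      have := list_le (S := {y | y ∈ Fx M (fc M x) ∧ M.w y ∈ I}) (Set.toFinite _) _ hnd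
        (by
          intro y hy
          simp only [List.mem_cons, List.not_mem_nil, or_false] at hy
          rcases hy with rfl | rfl | rfl
          · exact ⟨rfl, hx⟩
          · exact ⟨mk1 M x, by rw [M.w1]; exact hx⟩
          · exact ⟨(mk0 M _).trans ((mk1 M _).trans (mk0 M x)), hx'⟩)
      simp only [List.length_cons, List.length_nil] at this
      omega
    · exact (eq8 (inv01 M) (orbF M x _ rfl) (Set.toFinite _) h8').1
  · -- t3
    intro u hu hu'
    rcases hF (fc M u) with ⟨h2, h6⟩ | ⟨h4, h8'⟩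
    · by_contra hcon
      have hsub : {y | y ∈ Fx M (fc M u) ∧ M.w y ∈ I} ⊆ {M.a0 (M.a1 (M.a0 u))} := by
        rintro y ⟨hy, hyI⟩
        have hm := list_mem (Set.toFinite _) _ (nodup6 (inv01 M) (ne01 M u) (h40 u).symm)
          (mem6 (orbF M u _ rfl)) (by simp [h6]) hy
        simp only [List.mem_cons, List.not_mem_nil, or_false] at hm
        rcases hm with rfl | rfl | rfl | rfl | rfl | rfl
        · exact absurd hyI hu
        · exact absurd hyI hu'
        · rw [M.w1] at hyI
          exact absurd hyI hu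
        · rw [M.w1] at hyI
          exact absurd hyI hu'
        · exact absurd hyI hcon
        · rfl
      have := Set.ncard_le_ncard hsub (Set.toFinite _)
      rw [Set.ncard_singleton] at this
      omega
    · exact absurd (h8 _ h4 h8' u rfl hu) hu'
  · -- t5
    intro x hx
    exact eq8 (inv12 M) (orbV M x _ rfl) (Set.toFinite _) (hVe _ hx)

end KR
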