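import Pool.Agent.KR.St

/-!
# The quadrangular map of a tight map
-/

set_option autoImplicit false

namespace KR

open Function

namespace KR_DM

variable {W Ω : Type} {G : SimpleGraph W} (M : GMap G Ω) {I : Set W}

theorem adj0 (x : Ω) : G.Adj (M.w x) (M.w (M.a0 x)) := (M.adj _ _).2 ⟨x, rfl, rfl⟩

theorem wne (x : Ω) : M.w x ≠ M.w (M.a0 x) := (adj0 M x).ne

variable {M}

theorem ind0 (T : M.Tight I) {x : Ω} (hx : M.w x ∈ I) : M.w (M.a0 x) ∉ I :=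
  fun h => T.indep _ hx _ h (adj0 M x)

theorem ind1 (T : M.Tight I) {x : Ω} (hx : M.w (M.a0 x) ∈ I) : M.w x ∉ I :=
  fun h => ind0 T h hx

/-- the new involution -/
noncomputable def b2 (M : GMap G Ω) (I : Set W) (x : Ω) : Ω := by
  classical
  exact if M.w (M.a0 (M.a1 (M.a0 x))) ∈ I then M.a0 (M.a1 (M.a0 x))
    else M.a0 (M.a1 (M.a2 (M.a1 (M.a0 x))))

theorem b2_Q {x : Ω} (h : M.w (M.a0 (M.a1 (M.a0 x))) ∈ I) : b2 M I x = M.a0 (M.a1 (M.a0 x)) := by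
  unfold b2; rw [if_pos h]

theorem b2_T {x : Ω} (h : M.w (M.a0 (M.a1 (M.a0 x))) ∉ I) :
    b2 M I x = M.a0 (M.a1 (M.a2 (M.a1 (M.a0 x)))) := by
  unfold b2; rw [if_neg h]

theorem b2_mem (T : M.Tight I) {x : Ω} (hx : M.w x ∈ I) : M.w (b2 M I x) ∈ I := by
  by_cases h : M.w (M.a0 (M.a1 (M.a0 x))) ∈ I
  · rw [b2_Q h]; exact h
  · rw [b2_T h]
    apply T.t3
    · rw [M.w2, M.w1]; exact ind0 T hx
    · rw [M.c02, M.w2]; exact h

theorem b2_b2 {x : Ω} (hx : M.w x ∈ I) : b2 M I (b2 M I x) = x := by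
  by_cases h : M.w (M.a0 (M.a1 (M.a0 x))) ∈ I
  · rw [b2_Q h, b2_Q]
    · rw [M.i0, M.i1, M.i0]
    · rw [M.i0, M.i1, M.i0]; exact hx
  · rw [b2_T h, b2_T]
    · rw [M.i0, M.i1, M.i2, M.i1, M.i0]
    · rw [M.i0, M.i1, M.c02, M.w2]; exact h

theorem b2_ne (x : Ω) : b2 M I x ≠ x := by
  intro e
  by_cases h : M.w (M.a0 (M.a1 (M.a0 x))) ∈ I
  · rw [b2_Q h] at e
    have := congrArg M.a0 e
    rw [M.i0] at this
    exact M.n1 _ this
  · rw [b2_T h] at e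
    have h1 := congrArg M.a0 e
    rw [M.i0] at h1
    have h2 := congrArg M.a1 h1
    rw [M.i1] at h2
    exact M.n2 _ h2

theorem b2_a1 (T : M.Tight I) {x : Ω} (hx : M.w x ∈ I) : M.a1 (b2 M I x) = b2 M I (M.a1 x) := by
  by_cases h : M.w (M.a0 (M.a1 (M.a0 x))) ∈ I
  · have h2 := T.t2 x hx h
    rw [b2_Q h, b2_Q]
    · exact h2.symm
    · rw [h2, M.w1]; exact h
  · have h1 := T.t1 x hx h
    have hz := b2_mem T hx
    have e1 : M.a0 (M.a1 (M.a0 (b2 M I x))) = M.a2 (M.a0 (M.a1 (M.a0 x))) := by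
      rw [b2_T h, M.i0, M.i1, M.c02]
    have h3 := T.t1 (b2 M I x) hz (by rw [e1, M.w2]; exact h)
    rw [e1] at h3
    have h4 := congrArg M.a1 h3
    rw [M.i1] at h4
    have h5 := congrArg M.a0 h4
    rw [M.i0] at h5
    rw [h5, b2_T]
    · rw [h1]
    · rw [h1, M.i0, M.w1]; exact ind0 T hx

theorem b2_n02 (T : M.Tight I) {x : Ω} (hx : M.w x ∈ I) : M.a1 (b2 M I x) ≠ x := by
  intro e
  have e' := congrArg M.a1 e
  rw [M.i1] at e'
  by_cases h : M.w (M.a0 (M.a1 (M.a0 x))) ∈ I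
  · rw [b2_Q h] at e'
    have := congrArg M.a0 e'
    rw [M.i0] at this
    exact T.t4 x this.symm
  · have h1 := T.t1 x hx h
    rw [b2_T h] at e'
    have h2 := congrArg M.a0 e'
    rw [M.i0] at h2
    have h3 := congrArg M.a1 h2
    rw [M.i1, h1] at h3
    have h4 := congrArg M.w h3
    rw [M.w2] at h4
    exact wne M _ h4

theorem b2_w0 (x : Ω) : M.w (M.a0 (b2 M I x)) = M.w (M.a0 x) := by
  by_cases h : M.w (M.a0 (M.a1 (M.a0 x))) ∈ I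
  · rw [b2_Q h, M.i0, M.w1]
  · rw [b2_T h, M.i0, M.w1, M.w2, M.w1]

/-- flags of the new map at one vertex -/
theorem vvg (T : M.Tight I) (g : {x : Ω // M.w x ∈ I} → Prop)
    (h1 : ∀ x : {x : Ω // M.w x ∈ I}, g ⟨M.a2 x.1, by rw [M.w2]; exact x.2⟩ ↔ g x)
    (h2 : ∀ x : {x : Ω // M.w x ∈ I}, g ⟨b2 M I x.1, b2_mem T x.2⟩ ↔ g x)
    (x y : {x : Ω // M.w x ∈ I}) (hxy : M.w (M.a0 x.1) = M.w (M.a0 y.1)) : g x → g y := by
  have key : ∀ u : Ω, M.w u ∉ I → M.w (M.a0 u) ∉ I → M.w (M.a0 (M.a1 u)) ∈ I := T.t3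
  let gg : Ω → Prop := fun u => M.w u ∉ I ∧
    ((∃ h : M.w (M.a0 u) ∈ I, g ⟨M.a0 u, h⟩) ∨
      (M.w (M.a0 u) ∉ I ∧ ∃ h : M.w (M.a0 (M.a1 u)) ∈ I, g ⟨M.a0 (M.a1 u), h⟩))
  have gI : ∀ u, M.w u ∉ I → ∀ h : M.w (M.a0 u) ∈ I, (gg u ↔ g ⟨M.a0 u, h⟩) := by
    intro u hu h
    constructor
    · rintro ⟨_, ⟨_, h3⟩ | ⟨h3, _⟩⟩
      · exact h3
      · exact absurd h h3
    · intro h3
      exact ⟨hu, Or.inl ⟨h, h3⟩⟩
  have gT : ∀ u, M.w u ∉ I → M.w (M.a0 u) ∉ I → ∀ h : M.w (M.a0 (M.a1 u)) ∈ I,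
      (gg u ↔ g ⟨M.a0 (M.a1 u), h⟩) := by
    intro u hu h0 h
    constructor
    · rintro ⟨_, ⟨h3, _⟩ | ⟨_, _, h3⟩⟩
      · exact absurd h3 h0
      · exact h3
    · intro h3
      exact ⟨hu, Or.inr ⟨h0, h, h3⟩⟩
  have i1 : ∀ u, gg (M.a1 u) ↔ gg u := by
    intro u
    by_cases hu : M.w u ∈ I
    · constructor
      · intro h; exact absurd (by rw [M.w1]; exact hu) h.1
      · intro h; exact absurd hu h.1
    have hu' : M.w (M.a1 u) ∉ I := by rw [M.w1]; exact hu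
    by_cases h0 : M.w (M.a0 u) ∈ I
    · by_cases h3 : M.w (M.a0 (M.a1 u)) ∈ I
      · rw [gI _ hu' h3, gI _ hu h0]
        have e : b2 M I (M.a0 u) = M.a0 (M.a1 u) := by
          rw [b2_Q]
          · rw [M.i0]
          · rw [M.i0]; exact h3
        rw [← h2 ⟨M.a0 u, h0⟩]
        apply iff_of_eq
        congr 1
        exact Subtype.ext e.symm
      · have h4 : M.w (M.a0 (M.a1 (M.a1 u))) ∈ I := by rw [M.i1]; exact h0
        rw [gT _ hu' h3 h4, gI _ hu h0]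
        apply iff_of_eq
        congr 1
        apply Subtype.ext
        show M.a0 (M.a1 (M.a1 u)) = M.a0 u
        rw [M.i1]
    · have h3 := key u hu h0
      rw [gI _ hu' h3, gT _ hu h0 h3]
  have i2 : ∀ u, gg (M.a2 u) ↔ gg u := by
    intro u
    by_cases hu : M.w u ∈ I
    · constructor
      · intro h; exact absurd (by rw [M.w2]; exact hu) h.1
      · intro h; exact absurd hu h.1
    have hu' : M.w (M.a2 u) ∉ I := by rw [M.w2]; exact hu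
    by_cases h0 : M.w (M.a0 u) ∈ I
    · have h4 : M.w (M.a0 (M.a2 u)) ∈ I := by rw [M.c02, M.w2]; exact h0
      rw [gI _ hu' h4, gI _ hu h0, ← h1 ⟨M.a0 u, h0⟩]
      apply iff_of_eq
      congr 1
      exact Subtype.ext (M.c02 u)
    · have h4 : M.w (M.a0 (M.a2 u)) ∉ I := by rw [M.c02, M.w2]; exact h0
      have h3 := key u hu h0
      have h5 := key _ hu' h4
      rw [gT _ hu' h4 h5, gT _ hu h0 h3, ← h2 ⟨M.a0 (M.a1 u), h3⟩]
      apply iff_of_eq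
      congr 1
      apply Subtype.ext
      show M.a0 (M.a1 (M.a2 u)) = b2 M I (M.a0 (M.a1 u))
      rw [b2_T]
      · rw [M.i0, M.i1]
      · rw [M.i0, M.i1]; exact h0
  intro hx
  have hx0 : M.w (M.a0 x.1) ∉ I := ind0 T x.2
  have hy0 : M.w (M.a0 y.1) ∉ I := ind0 T y.2
  have ex : M.w (M.a0 (M.a0 x.1)) ∈ I := by rw [M.i0]; exact x.2
  have ey : M.w (M.a0 (M.a0 y.1)) ∈ I := by rw [M.i0]; exact y.2
  have a := M.vtx gg i1 i2 _ _ hxy ((gI _ hx0 ex).2 (by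
    have : (⟨M.a0 (M.a0 x.1), ex⟩ : {x : Ω // M.w x ∈ I}) = x := Subtype.ext (M.i0 _)
    rw [this]; exact hx))
  have b := (gI _ hy0 ey).1 a
  have : (⟨M.a0 (M.a0 y.1), ey⟩ : {x : Ω // M.w x ∈ I}) = y := Subtype.ext (M.i0 _)
  rwa [this] at b

theorem ffg (g : {x : Ω // M.w x ∈ I} → Prop)
    (h0 : ∀ x : {x : Ω // M.w x ∈ I}, g ⟨M.a1 x.1, by rw [M.w1]; exact x.2⟩ ↔ g x)
    (h1 : ∀ x : {x : Ω // M.w x ∈ I}, g ⟨M.a2 x.1, by rw [M.w2]; exact x.2⟩ ↔ g x)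
    (x y : {x : Ω // M.w x ∈ I}) (hxy : M.w x.1 = M.w y.1) : g x → g y := by
  intro hx
  have := M.vtx (fun u => ∃ h : M.w u ∈ I, g ⟨u, h⟩) (by
    intro u
    constructor
    · rintro ⟨h, hg⟩
      have h' : M.w u ∈ I := by rw [← M.w1]; exact h
      exact ⟨h', (h0 ⟨u, h'⟩).1 hg⟩
    · rintro ⟨h, hg⟩
      have h' : M.w (M.a1 u) ∈ I := by rw [M.w1]; exact h
      exact ⟨h', (h0 ⟨u, h⟩).2 hg⟩) (by
    intro u
    constructor
    · rintro ⟨h, hg⟩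
      have h' : M.w u ∈ I := by rw [← M.w2]; exact h
      exact ⟨h', (h1 ⟨u, h'⟩).1 hg⟩
    · rintro ⟨h, hg⟩
      have h' : M.w (M.a2 u) ∈ I := by rw [M.w2]; exact h
      exact ⟨h', (h1 ⟨u, h⟩).2 hg⟩) x.1 y.1 hxy ⟨x.2, hx⟩
  obtain ⟨h, hg⟩ := this
  exact hg

theorem conng (hG : G.Connected) (T : M.Tight I) (g : {x : Ω // M.w x ∈ I} → Prop)
    (h0 : ∀ x : {x : Ω // M.w x ∈ I}, g ⟨M.a1 x.1, by rw [M.w1]; exact x.2⟩ ↔ g x)
    (h1 : ∀ x : {x : Ω // M.w x ∈ I}, g ⟨M.a2 x.1, by rw [M.w2]; exact x.2⟩ ↔ g x)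
    (h2 : ∀ x : {x : Ω // M.w x ∈ I}, g ⟨b2 M I x.1, b2_mem T x.2⟩ ↔ g x)
    (x y : {x : Ω // M.w x ∈ I}) : g x → g y := by
  let K : W → Prop := fun t => ∃ x : {x : Ω // M.w x ∈ I}, (M.w x.1 = t ∨ M.w (M.a0 x.1) = t) ∧ g x
  have hK1 : ∀ x : {x : Ω // M.w x ∈ I}, g x ↔ K (M.w x.1) := by
    intro x
    constructor
    · intro h; exact ⟨x, Or.inl rfl, h⟩
    · rintro ⟨z, h | h, hz⟩
      · exact ffg g h0 h1 z x h hz
      · exact absurd (by rw [h]; exact x.2) (ind0 T z.2)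
  have hK2 : ∀ x : {x : Ω // M.w x ∈ I}, g x ↔ K (M.w (M.a0 x.1)) := by
    intro x
    constructor
    · intro h; exact ⟨x, Or.inr rfl, h⟩
    · rintro ⟨z, h | h, hz⟩
      · exact absurd (by rw [← h]; exact z.2) (ind0 T x.2)
      · exact vvg T g h1 h2 z x h hz
  have hadj : ∀ s t, G.Adj s t → (K s → K t) := by
    intro s t hst
    obtain ⟨u, rfl, rfl⟩ := (M.adj _ _).1 hst
    by_cases hu : M.w u ∈ I
    · rw [← hK1 ⟨u, hu⟩, ← hK2 ⟨u, hu⟩]; exact id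
    by_cases hu0 : M.w (M.a0 u) ∈ I
    · have a := hK1 ⟨M.a0 u, hu0⟩
      have b := hK2 ⟨M.a0 u, hu0⟩
      simp only [M.i0] at b
      rw [← a, ← b]; exact id
    · have h3 := T.t3 u hu hu0
      have a := hK2 ⟨M.a0 (M.a1 u), h3⟩
      simp only [M.i0, M.w1] at a
      have e : M.a0 (M.a1 (M.a0 (M.a0 (M.a1 u)))) = M.a0 u := by rw [M.i0, M.i1]
      have h4 := T.t1 (M.a0 (M.a1 u)) h3 (by rw [e]; exact hu0)
      rw [e] at h4
      have h5 := congrArg M.a1 h4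
      rw [M.i1] at h5
      have h6 : M.w (M.a1 (M.a0 (M.a1 u))) ∈ I := by rw [M.w1]; exact h3
      have b := hK2 ⟨M.a1 (M.a0 (M.a1 u)), h6⟩
      simp only [h5, M.w1] at b
      have c := h0 ⟨M.a0 (M.a1 u), h3⟩
      rw [← a, ← b]
      exact c.2
  have hw : ∀ s t, K s → K t := by
    intro s t hs
    obtain ⟨p⟩ := hG.preconnected s t
    induction p with
    | nil => exact hs
    | cons h _ ih => exact ih (hadj _ _ h hs)
  intro hx
  exact (hK1 y).2 (hw _ _ ((hK1 x).1 hx))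

theorem exadj [Finite W] (hG : G.Connected) (T : M.Tight I) (s : W) : ∃ t, G.Adj s t := by
  have hne : ∃ t, s ≠ t := by
    by_contra hc
    push Not at hc
    have : Subsingleton W := ⟨fun a b => (hc a).symm.trans (hc b)⟩
    have h1 : Nat.card W ≤ 1 := Finite.card_le_one_iff_subsingleton.2 this
    have h2 : 0 < Nat.card W := by
      haveI : Nonempty W := ⟨s⟩
      exact Nat.card_pos
    have := T.half
    omega
  obtain ⟨t, ht⟩ := hne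
  obtain ⟨p⟩ := hG.preconnected s t
  cases p with
  | nil => exact absurd rfl ht
  | cons h _ => exact ⟨_, h⟩

theorem eulg [Finite W] (T : M.Tight I) :
    Nat.card {u : W // u ∉ I} = Nat.card {u : W // u ∈ I} := by
  have h := T.half
  have h1 : Nat.card {u : W // u ∈ I} = I.ncard := rfl
  have h2 : Nat.card {u : W // u ∉ I} = (Iᶜ).ncard := rfl
  have h3 := Set.ncard_add_ncard_compl I
  omega

end KR_DM

open KR_DM in
theorem t_DM : S_DM := by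
  intro W Ω _ _ G M I hG T
  refine ⟨{
    a0 := fun x => ⟨M.a1 x.1, by rw [M.w1]; exact x.2⟩
    a1 := fun x => ⟨M.a2 x.1, by rw [M.w2]; exact x.2⟩
    a2 := fun x => ⟨b2 M I x.1, b2_mem T x.2⟩
    v := fun x => ⟨M.w (M.a0 x.1), ind0 T x.2⟩
    f := fun x => ⟨M.w x.1, x.2⟩
    i0 := fun x => Subtype.ext (M.i1 _)
    i1 := fun x => Subtype.ext (M.i2 _)
    i2 := fun x => Subtype.ext (b2_b2 x.2)
    n0 := fun x h => M.n1 _ (congrArg Subtype.val h)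
    n1 := fun x h => M.n2 _ (congrArg Subtype.val h)
    n2 := fun x h => b2_ne _ (congrArg Subtype.val h)
    c02 := fun x => Subtype.ext (b2_a1 T x.2)
    n02 := fun x h => b2_n02 T x.2 (congrArg Subtype.val h)
    q4 := fun x => Subtype.ext (T.t5 x.1 x.2).1
    n4 := fun x h => (T.t5 x.1 x.2).2 (congrArg Subtype.val h)
    v1 := fun x => Subtype.ext (by
      show M.w (M.a0 (M.a2 x.1)) = M.w (M.a0 x.1)
      rw [M.c02, M.w2])
    v2 := fun x => Subtype.ext (b2_w0 x.1)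
    vv := fun g h1 h2 x y hxy => vvg T g h1 h2 x y (congrArg Subtype.val hxy)
    f0 := fun x => Subtype.ext (M.w1 _)
    f1 := fun x => Subtype.ext (M.w2 _)
    ff := fun g h0 h1 x y hxy => ffg g h0 h1 x y (congrArg Subtype.val hxy)
    vs := ?_
    fs := ?_
    conn := fun g h0 h1 h2 x y => conng hG T g h0 h1 h2 x y
    eul := eulg T }, fun _ => rfl, fun _ => rfl, fun _ => rfl, fun _ => rfl⟩
  · rintro ⟨t, ht⟩
    obtain ⟨s, hs⟩ := exadj hG T t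
    obtain ⟨u, hu, hu'⟩ := (M.adj _ _).1 hs
    subst hu
    by_cases h0 : M.w (M.a0 u) ∈ I
    · exact ⟨⟨M.a0 u, h0⟩, Subtype.ext (by
        show M.w (M.a0 (M.a0 u)) = M.w u
        rw [M.i0])⟩
    · exact ⟨⟨M.a0 (M.a1 u), T.t3 u ht h0⟩, Subtype.ext (by
        show M.w (M.a0 (M.a0 (M.a1 u))) = M.w u
        rw [M.i0, M.w1])⟩
  · rintro ⟨t, ht⟩
    obtain ⟨s, hs⟩ := exadj hG T t
    obtain ⟨u, hu, hu'⟩ := (M.adj _ _).1 hs
    subst hu
    exact ⟨⟨u, ht⟩, rfl⟩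

end KR
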