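import Pool.Agent.KR.St

/-!
# HC: a connected 2-factor of the vertex-face graph gives a Hamilton cycle
-/

set_option autoImplicit false

namespace KR

open Function

namespace KR_HC

/-- a set of four elements closed under an involution without fixed points -/
lemma four {Ω : Type} [Finite Ω] (a1 : Ω → Ω) (i1 : ∀ x, a1 (a1 x) = x) (n1 : ∀ x, a1 x ≠ x)
    (S : Set Ω) (hS : S.ncard = 4) (hc : ∀ x ∈ S, a1 x ∈ S) :
    ∃ x y, x ∈ S ∧ y ∈ S ∧ S = {x, a1 x, y, a1 y} := by
  have hne : S.Nonempty := by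
    rw [Set.nonempty_iff_ne_empty]
    rintro rfl
    simp at hS
  obtain ⟨x, hx⟩ := hne
  have h2 : ¬ S ⊆ {x, a1 x} := by
    intro h
    have h3 := Set.ncard_le_ncard h (Set.toFinite _)
    have h4 := Set.ncard_insert_le x {a1 x}
    rw [Set.ncard_singleton] at h4
    omega
  obtain ⟨y, hy, hy2⟩ := Set.not_subset.mp h2
  simp only [Set.mem_insert_iff, Set.mem_singleton_iff, not_or] at hy2
  refine ⟨x, y, hx, hy, ?_⟩
  symm
  apply Set.eq_of_subset_of_ncard_le
  · intro z hz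
    simp only [Set.mem_insert_iff, Set.mem_singleton_iff] at hz
    rcases hz with rfl | rfl | rfl | rfl
    · exact hx
    · exact hc _ hx
    · exact hy
    · exact hc _ hy
  · rw [hS]
    have e1 : a1 y ≠ x := fun h => hy2.2 (by rw [← h, i1])
    have e2 : a1 y ≠ a1 x := fun h => hy2.1 (by rw [← i1 y, h, i1])
    rw [Set.ncard_insert_of_notMem, Set.ncard_insert_of_notMem, Set.ncard_insert_of_notMem,
      Set.ncard_singleton]
    · simpa using (n1 y).symm
    · simp only [Set.mem_insert_iff, Set.mem_singleton_iff, not_or]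
      exact ⟨fun h => hy2.2 h.symm, fun h => e2 h.symm⟩
    · simp only [Set.mem_insert_iff, Set.mem_singleton_iff, not_or]
      exact ⟨(n1 x).symm, fun h => hy2.1 h.symm, fun h => e1 h.symm⟩
  · exact Set.toFinite _

/-- the values of an invariant function on such a set -/
lemma two {Ω α : Type} [Finite Ω] (a1 : Ω → Ω) (i1 : ∀ x, a1 (a1 x) = x) (n1 : ∀ x, a1 x ≠ x)
    (S : Set Ω) (hS : S.ncard = 4) (hc : ∀ x ∈ S, a1 x ∈ S) (φ : Ω → α)
    (hφ : ∀ x, φ (a1 x) = φ x) (hn : ¬ ∀ x ∈ S, ∀ y ∈ S, φ x = φ y) : (φ '' S).ncard = 2 := by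
  obtain ⟨x, y, hx, hy, h⟩ := four a1 i1 n1 S hS hc
  have e : φ '' S = {φ x, φ y} := by
    ext c
    constructor
    · rintro ⟨z, hz, rfl⟩
      rw [h] at hz
      simp only [Set.mem_insert_iff, Set.mem_singleton_iff] at hz ⊢
      rcases hz with rfl | rfl | rfl | rfl
      · exact Or.inl rfl
      · exact Or.inl (hφ _)
      · exact Or.inr rfl
      · exact Or.inr (hφ _)
    · intro hc
      simp only [Set.mem_insert_iff, Set.mem_singleton_iff] at hc
      rcases hc with rfl | rfl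
      · exact ⟨x, hx, rfl⟩
      · exact ⟨y, hy, rfl⟩
  rw [e]
  apply Set.ncard_pair
  intro hxy
  apply hn
  intro z hz z' hz'
  have h1 : ∀ z ∈ S, φ z = φ x := by
    intro z hz
    rw [h] at hz
    simp only [Set.mem_insert_iff, Set.mem_singleton_iff] at hz
    rcases hz with rfl | rfl | rfl | rfl
    · rfl
    · exact hφ _
    · exact hxy.symm
    · rw [hφ]; exact hxy.symm
  rw [h1 z hz, h1 z' hz']

variable {Ω V F : Type}

/-- the graph of the 2-factor -/
def HG (m : QFlag Ω V F) (C : Set Ω) : SimpleGraph (V ⊕ F) where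
  Adj p q := ∃ x ∈ C, (p = Sum.inl (m.v x) ∧ q = Sum.inr (m.f x)) ∨
    (p = Sum.inr (m.f x) ∧ q = Sum.inl (m.v x))
  symm := ⟨by
    rintro p q ⟨x, hx, h | h⟩
    · exact ⟨x, hx, Or.inr ⟨h.2, h.1⟩⟩
    · exact ⟨x, hx, Or.inl ⟨h.2, h.1⟩⟩⟩
  loopless := ⟨by
    rintro p ⟨x, hx, ⟨h1, h2⟩ | ⟨h1, h2⟩⟩
    · rw [h1] at h2
      simp at h2
    · rw [h1] at h2
      simp at h2⟩

lemma HG_adj (m : QFlag Ω V F) (C : Set Ω) {x : Ω} (hx : x ∈ C) :
    (HG m C).Adj (Sum.inl (m.v x)) (Sum.inr (m.f x)) := ⟨x, hx, Or.inl ⟨rfl, rfl⟩⟩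

lemma nbr_inl (m : QFlag Ω V F) (C : Set Ω) (a : V) :
    (HG m C).neighborSet (Sum.inl a) = Sum.inr '' (m.f '' {x | x ∈ C ∧ m.v x = a}) := by
  ext q
  rw [SimpleGraph.mem_neighborSet]
  constructor
  · rintro ⟨x, hx, ⟨h1, h2⟩ | ⟨h1, h2⟩⟩
    · rw [Sum.inl.injEq] at h1
      exact ⟨m.f x, ⟨x, ⟨hx, h1.symm⟩, rfl⟩, h2.symm⟩
    · simp at h1
  · rintro ⟨_, ⟨x, ⟨hx, rfl⟩, rfl⟩, rfl⟩
    exact HG_adj m C hx

lemma nbr_inr (m : QFlag Ω V F) (C : Set Ω) (b : F) :
    (HG m C).neighborSet (Sum.inr b) = Sum.inl '' (m.v '' {x | x ∈ C ∧ m.f x = b}) := by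
  ext q
  rw [SimpleGraph.mem_neighborSet]
  constructor
  · rintro ⟨x, hx, ⟨h1, h2⟩ | ⟨h1, h2⟩⟩
    · simp at h1
    · rw [Sum.inr.injEq] at h1
      exact ⟨m.v x, ⟨x, ⟨hx, h1.symm⟩, rfl⟩, h2.symm⟩
  · rintro ⟨_, ⟨x, ⟨hx, rfl⟩, rfl⟩, rfl⟩
    exact (HG_adj m C hx).symm

end KR_HC

open KR_HC in
theorem t_HC : S_HC := by
  intro Ω V F _ _ _ _ _ m G C hB h5 hC
  classical
  have exv : ∀ a : V, ∃ x ∈ C, m.v x = a := by
    intro a
    have h := hC.dv a
    have hne : {x | x ∈ C ∧ m.v x = a}.Nonempty := by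
      rw [Set.nonempty_iff_ne_empty]
      intro h0
      rw [h0, Set.ncard_empty] at h
      omega
    obtain ⟨x, hx⟩ := hne
    exact ⟨x, hx.1, hx.2⟩
  have exf : ∀ b : F, ∃ x ∈ C, m.f x = b := by
    intro b
    have h := hC.df b
    have hne : {x | x ∈ C ∧ m.f x = b}.Nonempty := by
      rw [Set.nonempty_iff_ne_empty]
      intro h0
      rw [h0, Set.ncard_empty] at h
      omega
    obtain ⟨x, hx⟩ := hne
    exact ⟨x, hx.1, hx.2⟩
  -- a vertex and a face with the same corners: impossible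
  have key : ∀ (a : V) (b : F), {x | x ∈ C ∧ m.v x = a} = {x | x ∈ C ∧ m.f x = b} → False := by
    intro a b hab
    have hab' : ∀ x ∈ C, m.v x = a ↔ m.f x = b := by
      intro x hx
      have := Set.ext_iff.mp hab x
      simp only [Set.mem_ofPred_eq] at this
      constructor
      · intro h; exact (this.mp ⟨hx, h⟩).2
      · intro h; exact (this.mpr ⟨hx, h⟩).2
    obtain ⟨x0, hx0, hv0⟩ := exv a
    have hall : ∀ y ∈ C, m.v y = a := by
      intro y hy
      refine hC.cn (fun z => m.v z = a) ?_ ?_ x0 hx0 y hy hv0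
      · intro x _ z _ hvz hx
        rw [← hvz]; exact hx
      · intro x hx z hz hfz hxa
        rw [hab' z hz, ← hfz]
        exact (hab' x hx).mp hxa
    have hV : ∀ a' : V, a' = a := by
      intro a'
      obtain ⟨y, hy, h⟩ := exv a'
      rw [← h]; exact hall y hy
    have hF : ∀ b' : F, b' = b := by
      intro b'
      obtain ⟨y, hy, h⟩ := exf b'
      rw [← h]; exact (hab' y hy).mp (hall y hy)
    have c1 : Fintype.card V = 1 := Fintype.card_eq_one_iff.mpr ⟨a, hV⟩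
    have c2 : Fintype.card F = 1 := Fintype.card_eq_one_iff.mpr ⟨b, hF⟩
    rw [Fintype.card_sum, c1, c2] at h5
    omega
  have hcyc : (HG m C).IsCycles := by
    rintro (a | b) _
    · rw [nbr_inl, Set.ncard_image_of_injective _ Sum.inr_injective]
      refine two m.a1 m.i1 m.n1 _ (hC.dv a) ?_ m.f m.f1 ?_
      · rintro x ⟨hx, hv⟩
        exact ⟨(hC.c1 x).mpr hx, by rw [m.v1]; exact hv⟩
      · intro hall
        obtain ⟨x0, hx0, hv0⟩ := exv a
        refine key a (m.f x0) ?_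
        apply Set.eq_of_subset_of_ncard_le
        · rintro x ⟨hx, hv⟩
          exact ⟨hx, hall x ⟨hx, hv⟩ x0 ⟨hx0, hv0⟩⟩
        · rw [hC.dv, hC.df]
        · exact Set.toFinite _
    · rw [nbr_inr, Set.ncard_image_of_injective _ Sum.inl_injective]
      refine two m.a1 m.i1 m.n1 _ (hC.df b) ?_ m.v m.v1 ?_
      · rintro x ⟨hx, hv⟩
        exact ⟨(hC.c1 x).mpr hx, by rw [m.f1]; exact hv⟩
      · intro hall
        obtain ⟨x0, hx0, hv0⟩ := exf b
        refine key (m.v x0) b ?_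
        symm
        apply Set.eq_of_subset_of_ncard_le
        · rintro x ⟨hx, hv⟩
          exact ⟨hx, hall x ⟨hx, hv⟩ x0 ⟨hx0, hv0⟩⟩
        · rw [hC.dv, hC.df]
        · exact Set.toFinite _
  -- a starting vertex
  have hcard : 0 < Fintype.card (V ⊕ F) := by omega
  obtain ⟨s⟩ := Fintype.card_pos_iff.mp hcard
  have hx00 : ∃ x0, x0 ∈ C := by
    rcases s with a | b
    · obtain ⟨x, hx, _⟩ := exv a; exact ⟨x, hx⟩
    · obtain ⟨x, hx, _⟩ := exf b; exact ⟨x, hx⟩
  obtain ⟨x0, hx0⟩ := hx00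
  have hreach : ∀ y ∈ C, (HG m C).Reachable (Sum.inl (m.v x0)) (Sum.inl (m.v y)) := by
    intro y hy
    refine hC.cn (fun z => (HG m C).Reachable (Sum.inl (m.v x0)) (Sum.inl (m.v z))) ?_ ?_
      x0 hx0 y hy (SimpleGraph.Reachable.refl _)
    · intro x _ z _ hvz hx
      rw [← hvz]; exact hx
    · intro x hx z hz hfz hr
      have h1 := (HG_adj m C hx).reachable
      have h2 := (HG_adj m C hz).symm.reachable
      rw [← hfz] at h2
      exact hr.trans (h1.trans h2)
  have hall : ∀ q : V ⊕ F, (HG m C).Reachable (Sum.inl (m.v x0)) q := by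
    rintro (a | b)
    · obtain ⟨y, hy, h⟩ := exv a
      rw [← h]; exact hreach y hy
    · obtain ⟨y, hy, h⟩ := exf b
      rw [← h]
      exact (hreach y hy).trans (HG_adj m C hy).reachable
  set c := (HG m C).connectedComponentMk (Sum.inl (m.v x0)) with hc
  have hsupp : c.supp = Set.univ := by
    ext q
    simp only [Set.mem_univ, iff_true, SimpleGraph.ConnectedComponent.mem_supp_iff]
    rw [hc, SimpleGraph.ConnectedComponent.eq]
    exact (hall q).symm
  obtain ⟨p, hp1, hp2⟩ := hcyc.exists_cycle_toSubgraph_verts_eq_connectedComponentSupp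
    (c := c) (v := Sum.inl (m.v x0)) (by rw [hsupp]; trivial) ⟨_, HG_adj m C hx0⟩
  have hle : HG m C ≤ G := by
    rintro u w ⟨x, hx, ⟨h1, h2⟩ | ⟨h1, h2⟩⟩
    · rw [h1, h2]; exact (hB.vf _ _).mpr ⟨x, rfl, rfl⟩
    · rw [h1, h2]; exact ((hB.vf _ _).mpr ⟨x, rfl, rfl⟩).symm
  intro _
  refine ⟨_, p.mapLe hle, ?_⟩
  rw [SimpleGraph.Walk.isHamiltonianCycle_iff_isCycle_and_length_eq]
  refine ⟨hp1.mapLe hle, ?_⟩
  have hmem : ∀ q, q ∈ p.support.tail := by
    intro q
    have hq : q ∈ p.support := by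
      rw [← SimpleGraph.Walk.mem_verts_toSubgraph, hp2, hsupp]
      trivial
    rcases (SimpleGraph.Walk.mem_support_iff p).mp hq with h | h
    · rw [h]
      exact SimpleGraph.Walk.end_mem_tail_support hp1.not_nil
    · exact h
  have h1 : p.support.tail.toFinset = Finset.univ := by
    ext q
    simp only [List.mem_toFinset, Finset.mem_univ, iff_true]
    exact hmem q
  have h2 := List.toFinset_card_of_nodup hp1.support_nodup
  rw [h1, Finset.card_univ] at h2
  have h3 : p.support.tail.length = p.length := by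
    rw [List.length_tail, SimpleGraph.Walk.length_support]
    simp
  have h4 : (p.mapLe hle).length = p.length := by
    exact SimpleGraph.Walk.length_map _ _
  rw [h4, ← h3, h2]

end KR
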