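import Pool.Agent.KR.St

/-!
# LA: linear algebra over `ZMod 2` (project MP_b1567b_co)
-/

set_option autoImplicit false

namespace KR
namespace KR_LA

open Function Finset

variable {Ω V F : Type}

section basic

variable (m : QFlag Ω V F)

theorem f20 (x : Ω) : m.f (m.a2 (m.a0 x)) = m.f (m.a2 x) := by
  rw [← m.c02, m.f0]

theorem v02 (x : Ω) : m.v (m.a0 (m.a2 x)) = m.v (m.a0 x) := by
  rw [m.c02, m.v2]

theorem k4 (y : Ω) : y ≠ m.a1 (m.a0 (m.a1 (m.a0 y))) := by
  rw [← m.q4]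
  exact (m.n4 y).symm

theorem k1 (y : Ω) : y ≠ m.a0 y := (m.n0 y).symm

theorem k7 (y : Ω) : y ≠ m.a1 y := (m.n1 y).symm

theorem k2 (y : Ω) : y ≠ m.a1 (m.a0 y) := by
  intro h
  apply k4 m y
  rw [← h]
  exact h

theorem k6 (y : Ω) : y ≠ m.a0 (m.a1 y) := by
  intro h
  apply m.n4 y
  rw [← h]
  exact h.symm

theorem k3 (y : Ω) : y ≠ m.a0 (m.a1 (m.a0 y)) := by
  intro h
  have h2 := congrArg m.a0 h
  rw [m.i0] at h2
  exact m.n1 _ h2.symm

theorem k5 (y : Ω) : y ≠ m.a1 (m.a0 (m.a1 y)) := by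
  intro h
  have h2 := congrArg m.a1 h
  rw [m.i1] at h2
  exact m.n0 _ h2.symm

theorem q5 (y : Ω) : m.a0 (m.a1 (m.a0 (m.a1 (m.a0 y)))) = m.a1 (m.a0 (m.a1 y)) := by
  rw [m.q4, m.i0]

/-- every face has eight flags -/
theorem face8 [Fintype Ω] [DecidableEq F] (φ : F) :
    (univ.filter (fun x => m.f x = φ)).card = 8 := by
  classical
  obtain ⟨x, rfl⟩ := m.fs φ
  have h : univ.filter (fun y => m.f y = m.f x) =
      {x, m.a0 x, m.a1 (m.a0 x), m.a0 (m.a1 (m.a0 x)), m.a1 (m.a0 (m.a1 (m.a0 x))),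
        m.a1 (m.a0 (m.a1 x)), m.a0 (m.a1 x), m.a1 x} := by
    ext y
    simp only [mem_filter, mem_univ, true_and, mem_insert, mem_singleton]
    constructor
    · intro hy
      have key0 : ∀ y, (y = x ∨ y = m.a0 x ∨ y = m.a1 (m.a0 x) ∨ y = m.a0 (m.a1 (m.a0 x)) ∨
          y = m.a1 (m.a0 (m.a1 (m.a0 x))) ∨ y = m.a1 (m.a0 (m.a1 x)) ∨ y = m.a0 (m.a1 x) ∨
          y = m.a1 x) → (m.a0 y = x ∨ m.a0 y = m.a0 x ∨ m.a0 y = m.a1 (m.a0 x) ∨
          m.a0 y = m.a0 (m.a1 (m.a0 x)) ∨ m.a0 y = m.a1 (m.a0 (m.a1 (m.a0 x))) ∨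
          m.a0 y = m.a1 (m.a0 (m.a1 x)) ∨ m.a0 y = m.a0 (m.a1 x) ∨ m.a0 y = m.a1 x) := by
        rintro y (rfl | rfl | rfl | rfl | rfl | rfl | rfl | rfl)
        · right; left; rfl
        · left; rw [m.i0]
        · right; right; right; left; rfl
        · right; right; left; rw [m.i0]
        · right; right; right; right; right; left; rw [q5]
        · right; right; right; right; left; rw [m.q4]
        · right; right; right; right; right; right; right; rw [m.i0]
        · right; right; right; right; right; right; left; rfl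
      have key1 : ∀ y, (y = x ∨ y = m.a0 x ∨ y = m.a1 (m.a0 x) ∨ y = m.a0 (m.a1 (m.a0 x)) ∨
          y = m.a1 (m.a0 (m.a1 (m.a0 x))) ∨ y = m.a1 (m.a0 (m.a1 x)) ∨ y = m.a0 (m.a1 x) ∨
          y = m.a1 x) → (m.a1 y = x ∨ m.a1 y = m.a0 x ∨ m.a1 y = m.a1 (m.a0 x) ∨
          m.a1 y = m.a0 (m.a1 (m.a0 x)) ∨ m.a1 y = m.a1 (m.a0 (m.a1 (m.a0 x))) ∨
          m.a1 y = m.a1 (m.a0 (m.a1 x)) ∨ m.a1 y = m.a0 (m.a1 x) ∨ m.a1 y = m.a1 x) := by
        rintro y (rfl | rfl | rfl | rfl | rfl | rfl | rfl | rfl)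
        · right; right; right; right; right; right; right; rfl
        · right; right; left; rfl
        · right; left; rw [m.i1]
        · right; right; right; right; left; rfl
        · right; right; right; left; rw [m.i1]
        · right; right; right; right; right; right; left; rw [m.i1]
        · right; right; right; right; right; left; rfl
        · left; rw [m.i1]
      refine m.ff (fun y => y = x ∨ y = m.a0 x ∨ y = m.a1 (m.a0 x) ∨ y = m.a0 (m.a1 (m.a0 x)) ∨
          y = m.a1 (m.a0 (m.a1 (m.a0 x))) ∨ y = m.a1 (m.a0 (m.a1 x)) ∨ y = m.a0 (m.a1 x) ∨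
          y = m.a1 x) (fun z => ⟨fun hz => ?_, key0 z⟩) (fun z => ⟨fun hz => ?_, key1 z⟩)
          x y hy.symm (Or.inl rfl)
      · have h1 := key0 _ hz
        rw [m.i0] at h1
        exact h1
      · have h1 := key1 _ hz
        rw [m.i1] at h1
        exact h1
    · rintro (rfl | rfl | rfl | rfl | rfl | rfl | rfl | rfl) <;> simp only [m.f0, m.f1]
  have c01 := k1 m x
  have c02 := k2 m x
  have c03 := k3 m x
  have c04 := k4 m x
  have c05 := k5 m x
  have c06 := k6 m x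
  have c07 := k7 m x
  have c12 : m.a0 x ≠ m.a1 (m.a0 x) := k7 m _
  have c13 : m.a0 x ≠ m.a0 (m.a1 (m.a0 x)) := k6 m _
  have c14 : m.a0 x ≠ m.a1 (m.a0 (m.a1 (m.a0 x))) := k5 m _
  have c15 : m.a0 x ≠ m.a1 (m.a0 (m.a1 x)) := by
    have h1 := k4 m (m.a0 x)
    rwa [m.i0] at h1
  have c16 : m.a0 x ≠ m.a0 (m.a1 x) := by
    have h1 := k3 m (m.a0 x)
    rwa [m.i0] at h1
  have c17 : m.a0 x ≠ m.a1 x := by
    have h1 := k2 m (m.a0 x)
    rwa [m.i0] at h1
  have c23 : m.a1 (m.a0 x) ≠ m.a0 (m.a1 (m.a0 x)) := k1 m _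
  have c24 : m.a1 (m.a0 x) ≠ m.a1 (m.a0 (m.a1 (m.a0 x))) := k2 m _
  have c25 : m.a1 (m.a0 x) ≠ m.a1 (m.a0 (m.a1 x)) := by
    have h1 := k3 m (m.a1 (m.a0 x))
    rwa [q5] at h1
  have c26 : m.a1 (m.a0 x) ≠ m.a0 (m.a1 x) := by
    have h1 := k4 m (m.a1 (m.a0 x))
    rwa [← m.q4, m.i1, m.i0] at h1
  have c27 : m.a1 (m.a0 x) ≠ m.a1 x := by
    have h1 := k5 m (m.a1 (m.a0 x))
    rwa [m.i1, m.i0] at h1
  have c34 : m.a0 (m.a1 (m.a0 x)) ≠ m.a1 (m.a0 (m.a1 (m.a0 x))) := k7 m _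
  have c35 : m.a0 (m.a1 (m.a0 x)) ≠ m.a1 (m.a0 (m.a1 x)) := by
    have h1 := k6 m (m.a0 (m.a1 (m.a0 x)))
    rwa [q5] at h1
  have c36 : m.a0 (m.a1 (m.a0 x)) ≠ m.a0 (m.a1 x) := by
    intro h1
    have h2 := congrArg m.a0 h1
    rw [m.i0, m.i0] at h2
    exact c27 h2
  have c37 : m.a0 (m.a1 (m.a0 x)) ≠ m.a1 x := by
    intro h1
    have h2 := congrArg m.a0 h1
    rw [m.i0] at h2
    exact c26 h2
  have c45 : m.a1 (m.a0 (m.a1 (m.a0 x))) ≠ m.a1 (m.a0 (m.a1 x)) := by
    intro h1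
    have h2 := congrArg m.a1 h1
    rw [m.i1, m.i1] at h2
    exact c36 h2
  have c46 : m.a1 (m.a0 (m.a1 (m.a0 x))) ≠ m.a0 (m.a1 x) := by
    intro h1
    have h2 := congrArg m.a0 h1
    rw [q5, m.i0] at h2
    have h3 := congrArg m.a1 h2
    rw [m.i1, m.i1] at h3
    exact k6 m x h3.symm
  have c47 : m.a1 (m.a0 (m.a1 (m.a0 x))) ≠ m.a1 x := by
    intro h1
    have h2 := congrArg m.a1 h1
    rw [m.i1, m.i1] at h2
    exact c03 h2.symm
  have c56 : m.a1 (m.a0 (m.a1 x)) ≠ m.a0 (m.a1 x) := m.n1 _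
  have c57 : m.a1 (m.a0 (m.a1 x)) ≠ m.a1 x := by
    intro h1
    have h2 := congrArg m.a1 h1
    rw [m.i1, m.i1] at h2
    exact c06 h2.symm
  have c67 : m.a0 (m.a1 x) ≠ m.a1 x := m.n0 _
  rw [h, card_insert_of_notMem (by simp [c01, c02, c03, c04, c05, c06, c07]),
    card_insert_of_notMem (by simp [c12, c13, c14, c15, c16, c17]),
    card_insert_of_notMem (by simp [c23, c24, c25, c26, c27]),
    card_insert_of_notMem (by simp [c34, c35, c36, c37]),
    card_insert_of_notMem (by simp [c45, c46, c47]),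
    card_insert_of_notMem (by simp [c56, c57]),
    card_insert_of_notMem (by simp [c67]), card_singleton]

include m in
theorem cardX [Fintype Ω] [Fintype F] : Fintype.card Ω = 8 * Fintype.card F := by
  classical
  have h := Finset.card_eq_sum_card_fiberwise (s := (univ : Finset Ω)) (t := (univ : Finset F))
    (f := m.f) (fun x _ => by simp)
  rw [Finset.card_univ] at h
  rw [h, Finset.sum_congr rfl (fun φ _ => face8 m φ)]
  simp [mul_comm]

include m in
theorem cardV [Fintype V] [Fintype F] : Fintype.card V = Fintype.card F := by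
  rw [← Nat.card_eq_fintype_card, ← Nat.card_eq_fintype_card, m.eul]

/-- one flag of every edge -/
def Rep (T : Set Ω) : Prop :=
  ∀ x, (x ∈ T ∧ m.a0 x ∉ T ∧ m.a2 x ∉ T ∧ m.a0 (m.a2 x) ∉ T) ∨
    (x ∉ T ∧ m.a0 x ∈ T ∧ m.a2 x ∉ T ∧ m.a0 (m.a2 x) ∉ T) ∨
    (x ∉ T ∧ m.a0 x ∉ T ∧ m.a2 x ∈ T ∧ m.a0 (m.a2 x) ∉ T) ∨
    (x ∉ T ∧ m.a0 x ∉ T ∧ m.a2 x ∉ T ∧ m.a0 (m.a2 x) ∈ T)

theorem exT [Finite Ω] : ∃ T : Set Ω, Rep m T := by
  obtain ⟨n, ⟨e⟩⟩ := Finite.exists_equiv_fin Ω
  refine ⟨{x | (e x : ℕ) < e (m.a0 x) ∧ (e x : ℕ) < e (m.a2 x) ∧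
    (e x : ℕ) < e (m.a0 (m.a2 x))}, fun x => ?_⟩
  have hne : ∀ y z, y ≠ z → (e y : ℕ) ≠ e z := fun y z h h' =>
    h (e.injective (Fin.ext h'))
  have h1 := hne _ _ (m.n0 x)
  have h2 := hne _ _ (m.n2 x)
  have h3 := hne _ _ (m.n02 x)
  have h4 : ((e (m.a0 x) : Fin n) : ℕ) ≠ e (m.a2 x) := by
    refine hne _ _ fun h => m.n02 x ?_
    rw [← h, m.i0]
  have h5 : ((e (m.a0 x) : Fin n) : ℕ) ≠ e (m.a0 (m.a2 x)) := by
    refine hne _ _ fun h => m.n2 x ?_
    have h' := congrArg m.a0 h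
    rw [m.i0, m.i0] at h'
    exact h'.symm
  have h6 : ((e (m.a2 x) : Fin n) : ℕ) ≠ e (m.a0 (m.a2 x)) := hne _ _ (m.n0 _).symm
  have e1 : m.a2 (m.a0 x) = m.a0 (m.a2 x) := (m.c02 x).symm
  have e2 : m.a0 (m.a2 (m.a0 x)) = m.a2 x := by rw [e1, m.i0]
  have e3 : m.a2 (m.a0 (m.a2 x)) = m.a0 x := by rw [← m.c02, m.i2]
  have e4 : m.a0 (m.a2 (m.a0 (m.a2 x))) = x := by rw [e3, m.i0]
  simp only [Set.mem_ofPred_eq, m.i0, m.i2, e1, e2, e3, e4]
  omega

variable {m}

theorem a0_bij : Function.Bijective m.a0 := Function.Involutive.bijective m.i0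

theorem a2_bij : Function.Bijective m.a2 := Function.Involutive.bijective m.i2

/-- sums over the representatives -/
theorem sum_T [Fintype Ω] {T : Set Ω} [DecidablePred (· ∈ T)]
    (hT : Rep m T) {R : Type} [AddCommMonoid R] (g : Ω → R) :
    ∑ x ∈ univ.filter (· ∈ T), (g x + g (m.a0 x) + g (m.a2 x) + g (m.a0 (m.a2 x))) =
      ∑ x, g x := by
  have h1 : ∀ x, g x = (if x ∈ T then g x else 0) + (if m.a0 x ∈ T then g x else 0) +
      (if m.a2 x ∈ T then g x else 0) + (if m.a0 (m.a2 x) ∈ T then g x else 0) := by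
    intro x
    rcases hT x with h | h | h | h <;> obtain ⟨ha, hb, hc, hd⟩ := h <;>
      simp [ha, hb, hc, hd]
  rw [Finset.sum_congr rfl fun x _ => h1 x, Finset.sum_add_distrib, Finset.sum_add_distrib,
    Finset.sum_add_distrib, Finset.sum_add_distrib, Finset.sum_add_distrib,
    Finset.sum_add_distrib]
  have i0 : Function.Bijective m.a0 := a0_bij
  have i2 : Function.Bijective m.a2 := a2_bij
  have r0 : ∑ x, (if m.a0 x ∈ T then g x else 0) =
      ∑ x ∈ univ.filter (· ∈ T), g (m.a0 x) := by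
    rw [Finset.sum_filter, ← i0.sum_comp]
    refine Finset.sum_congr rfl fun x _ => ?_
    rw [m.i0]
  have r2 : ∑ x, (if m.a2 x ∈ T then g x else 0) =
      ∑ x ∈ univ.filter (· ∈ T), g (m.a2 x) := by
    rw [Finset.sum_filter, ← i2.sum_comp]
    refine Finset.sum_congr rfl fun x _ => ?_
    rw [m.i2]
  have r02 : ∑ x, (if m.a0 (m.a2 x) ∈ T then g x else 0) =
      ∑ x ∈ univ.filter (· ∈ T), g (m.a0 (m.a2 x)) := by
    rw [Finset.sum_filter, ← (i0.comp i2).sum_comp]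
    refine Finset.sum_congr rfl fun x _ => ?_
    have e1 : m.a0 (m.a2 (m.a0 (m.a2 x))) = x := by rw [← m.c02, m.i2, m.i0]
    change (if m.a0 (m.a2 (m.a0 (m.a2 x))) ∈ T then g (m.a0 (m.a2 x)) else 0) = _
    rw [e1]
  rw [r0, r2, r02, Finset.sum_filter]

/-- an invariant set has a quarter of its elements in `T` -/
theorem quarter [Fintype Ω] [DecidableEq Ω] {T : Set Ω} [DecidablePred (· ∈ T)]
    (hT : Rep m T) (A : Finset Ω) (h0 : ∀ x, m.a0 x ∈ A ↔ x ∈ A)
    (h2 : ∀ x, m.a2 x ∈ A ↔ x ∈ A) :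
    A.card = 4 * (A.filter (· ∈ T)).card := by
  have h := sum_T hT (fun x => if x ∈ A then 1 else 0)
  simp only [h0, h2] at h
  have h3 : ∑ x, (if x ∈ A then 1 else 0) = A.card := by simp
  have h4 : ∀ x, (if x ∈ A then 1 else 0) + (if x ∈ A then 1 else 0) +
      (if x ∈ A then 1 else 0) + (if x ∈ A then 1 else 0) = 4 * (if x ∈ A then 1 else 0) := by
    intro x
    ring
  rw [h3, Finset.sum_congr rfl fun x _ => h4 x, ← Finset.mul_sum, Finset.sum_boole,
    Finset.filter_filter] at h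
  rw [← h]
  congr 1
  simp only [Nat.cast_id]
  congr 1
  ext x
  simp [and_comm]

variable (m)

/-- incidence of a face and an edge -/
noncomputable def c (φ : F) (x : Ω) : ZMod 2 := by
  classical
  exact (if m.f x = φ then 1 else 0) + (if m.f (m.a2 x) = φ then 1 else 0)

theorem sum_c [Fintype Ω] {T : Set Ω} [DecidablePred (· ∈ T)]
    (hT : Rep m T) (β : V → ZMod 2) (φ : F) :
    ∑ x ∈ univ.filter (· ∈ T), c m φ x * (β (m.v x) + β (m.v (m.a0 x))) = 0 := by
  classical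
  have h1 : ∑ x ∈ univ.filter (· ∈ T), c m φ x * (β (m.v x) + β (m.v (m.a0 x))) =
      ∑ x, (if m.f x = φ then 1 else 0) * β (m.v x) := by
    rw [← sum_T hT]
    refine Finset.sum_congr rfl fun x _ => ?_
    unfold c
    rw [m.f0, m.f0, m.v2, v02]
    ring
  rw [h1]
  refine Finset.sum_involution (fun x _ => m.a1 x) ?_ ?_ ?_ ?_
  · intro x _
    rw [m.f1, m.v1]
    exact CharTwo.add_self_eq_zero _
  · intro x _ _
    exact m.n1 x
  · intro x _
    exact mem_univ _
  · intro x _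
    exact m.i1 x

end basic

section main

variable (m : QFlag Ω V F) (T : Set Ω) (Y : Set V)

/-- edges not inside `Y` -/
abbrev E : Type := {x : Ω // x ∈ T ∧ ¬ (m.v x ∈ Y ∧ m.v (m.a0 x) ∈ Y)}

/-- the incidence matrix -/
noncomputable def M : Matrix F (E m T Y) (ZMod 2) := Matrix.of fun φ x => c m φ x.1

/-- extension by zero -/
noncomputable def ext0 (β : {a : V // a ∉ Y} → ZMod 2) (a : V) : ZMod 2 := by
  classical
  exact if h : a ∉ Y then β ⟨a, h⟩ else 0

/-- coboundary -/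
noncomputable def δ : ({a : V // a ∉ Y} → ZMod 2) →ₗ[ZMod 2] (E m T Y → ZMod 2) where
  toFun β := fun x => ext0 Y β (m.v x.1) + ext0 Y β (m.v (m.a0 x.1))
  map_add' β γ := by
    have h : ∀ a, ext0 Y (β + γ) a = ext0 Y β a + ext0 Y γ a := by
      intro a
      unfold ext0
      by_cases ha : a ∉ Y
      · simp [ha]
      · simp [ha]
    funext x
    simp only [h, Pi.add_apply]
    ring
  map_smul' k β := by
    have h : ∀ a, ext0 Y (k • β) a = k * ext0 Y β a := by
      intro a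
      unfold ext0
      by_cases ha : a ∉ Y
      · simp [ha]
      · simp [ha]
    funext x
    simp only [h, Pi.smul_apply, smul_eq_mul, RingHom.id_apply]
    ring

variable {m T Y}

theorem sum_E [Fintype Ω] [DecidablePred (· ∈ T)] [Fintype (E m T Y)] (g : Ω → ZMod 2)
    (hg : ∀ x ∈ T, m.v x ∈ Y → m.v (m.a0 x) ∈ Y → g x = 0) :
    ∑ x : E m T Y, g x.1 = ∑ x ∈ univ.filter (· ∈ T), g x := by
  classical
  have h1 : ∑ x ∈ univ.filter (· ∈ T), g x =
      ∑ x ∈ univ.filter (fun x => x ∈ T ∧ ¬ (m.v x ∈ Y ∧ m.v (m.a0 x) ∈ Y)), g x := by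
    symm
    refine Finset.sum_subset ?_ ?_
    · intro x hx
      simp only [mem_filter, mem_univ, true_and] at hx ⊢
      exact hx.1
    · intro x hx hx'
      simp only [mem_filter, mem_univ, true_and] at hx hx'
      have : m.v x ∈ Y ∧ m.v (m.a0 x) ∈ Y := by
        by_contra hc
        exact hx' ⟨hx, hc⟩
      exact hg x hx this.1 this.2
  rw [h1]
  exact (Finset.sum_subtype _ (fun x => by simp) g).symm

/-- the coboundary is injective -/
theorem δ_inj (hT : Rep m T) (hY : Y.Nonempty) :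
    Function.Injective (δ m T Y) := by
  classical
  rw [← LinearMap.ker_eq_bot, LinearMap.ker_eq_bot']
  intro β hβ
  have hY0 : ∀ a ∈ Y, ext0 Y β a = 0 := by
    intro a ha
    unfold ext0
    simp [ha]
  have key0 : ∀ x ∈ T, ext0 Y β (m.v x) = ext0 Y β (m.v (m.a0 x)) := by
    intro x hx
    by_cases hc : m.v x ∈ Y ∧ m.v (m.a0 x) ∈ Y
    · rw [hY0 _ hc.1, hY0 _ hc.2]
    · have h := congrFun hβ ⟨x, hx, hc⟩
      change ext0 Y β (m.v x) + ext0 Y β (m.v (m.a0 x)) = 0 at h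
      exact CharTwo.add_eq_zero.1 h
  have key : ∀ x, ext0 Y β (m.v (m.a0 x)) = ext0 Y β (m.v x) := by
    intro x
    rcases hT x with h | h | h | h
    · exact (key0 x h.1).symm
    · have h1 := key0 _ h.2.1
      rw [m.i0] at h1
      exact h1
    · have h1 := key0 _ h.2.2.1
      rw [m.v2, v02] at h1
      exact h1.symm
    · have h1 := key0 _ h.2.2.2
      rw [m.i0, m.v2, v02] at h1
      exact h1
  obtain ⟨y, hy⟩ := hY
  obtain ⟨y0, rfl⟩ := m.vs y
  have h0 : ∀ x, ext0 Y β (m.v x) = 0 := by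
    intro x
    refine m.conn (fun x => ext0 Y β (m.v x) = 0) (fun x => ?_) (fun x => ?_) (fun x => ?_)
      y0 x (hY0 _ hy)
    · rw [key x]
    · rw [m.v1]
    · rw [m.v2]
  funext a
  obtain ⟨x, hx⟩ := m.vs a.1
  have h := h0 x
  rw [hx] at h
  unfold ext0 at h
  simpa [a.2] using h

theorem range_le [Fintype Ω] [Fintype (E m T Y)] (hT : Rep m T) :
    LinearMap.range (δ m T Y) ≤ LinearMap.ker (M m T Y).mulVecLin := by
  classical
  rintro _ ⟨β, rfl⟩
  rw [LinearMap.mem_ker]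
  funext φ
  change ∑ x : E m T Y, c m φ x.1 * (ext0 Y β (m.v x.1) + ext0 Y β (m.v (m.a0 x.1))) = 0
  rw [sum_E (m := m) (T := T) (Y := Y)
    (fun x => c m φ x * (ext0 Y β (m.v x) + ext0 Y β (m.v (m.a0 x)))) ?_]
  · exact sum_c m hT _ φ
  · intro x _ h1 h2
    have hY0 : ∀ a ∈ Y, ext0 Y β a = 0 := by
      intro a ha
      unfold ext0
      simp [ha]
    simp only [hY0 _ h1, hY0 _ h2, add_zero, mul_zero]

/-- functions on the faces with trivial coboundary are constant on the regions -/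
theorem ker_le [Finite Ω] [Fintype F] [Fintype (E m T Y)] (hT : Rep m T) :
    Module.finrank (ZMod 2) (LinearMap.ker (M m T Y).transpose.mulVecLin) ≤ m.R Y := by
  classical
  have : Finite (Quot (m.J Y)) := Finite.of_surjective (Quot.mk _) Quot.mk_surjective
  have : Fintype (Quot (m.J Y)) := Fintype.ofFinite _
  have key0 : ∀ h ∈ LinearMap.ker (M m T Y).transpose.mulVecLin, ∀ x ∈ T,
      ¬ (m.v x ∈ Y ∧ m.v (m.a0 x) ∈ Y) → h (m.f x) = h (m.f (m.a2 x)) := by
    intro h hh x hx hc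
    rw [LinearMap.mem_ker] at hh
    have h1 := congrFun hh ⟨x, hx, hc⟩
    change ∑ φ : F, c m φ x * h φ = 0 at h1
    unfold c at h1
    simp only [add_mul, ite_mul, one_mul, zero_mul, Finset.sum_add_distrib,
      Finset.sum_ite_eq, Finset.mem_univ, if_true] at h1
    exact CharTwo.add_eq_zero.1 h1
  have key : ∀ h ∈ LinearMap.ker (M m T Y).transpose.mulVecLin, ∀ a b, m.J Y a b → h a = h b := by
    rintro h hh a b ⟨x, hc, rfl, rfl⟩
    rcases hT x with h3 | h3 | h3 | h3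
    · exact key0 h hh x h3.1 hc
    · have h1 := key0 h hh _ h3.2.1 (by
        rw [m.i0]
        exact fun hd => hc ⟨hd.2, hd.1⟩)
      rwa [m.f0, f20] at h1
    · have h1 := key0 h hh _ h3.2.2.1 (by
        rw [m.v2, v02]
        exact hc)
      rw [m.i2] at h1
      exact h1.symm
    · have h1 := key0 h hh _ h3.2.2.2 (by
        rw [m.i0, m.v2, v02]
        exact fun hd => hc ⟨hd.2, hd.1⟩)
      rw [m.f0, f20, m.i2] at h1
      exact h1.symm
  let Λ : (Quot (m.J Y) → ZMod 2) →ₗ[ZMod 2] (F → ZMod 2) :=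
    { toFun := fun g φ => g (Quot.mk _ φ)
      map_add' := fun _ _ => rfl
      map_smul' := fun _ _ => rfl }
  have hle : LinearMap.ker (M m T Y).transpose.mulVecLin ≤ LinearMap.range Λ := by
    intro h hh
    exact ⟨Quot.lift h (key h hh), rfl⟩
  refine (Submodule.finrank_mono hle).trans ?_
  refine (LinearMap.finrank_range_le Λ).trans ?_
  rw [Module.finrank_fintype_fun_eq_card]
  unfold QFlag.R
  rw [Nat.card_eq_fintype_card]

/-- number of edges not inside `Y` -/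
theorem cardE [Fintype Ω] [Fintype F] [Fintype (E m T Y)] (hT : Rep m T) :
    4 * Fintype.card (E m T Y) + m.d Y = 8 * Fintype.card F := by
  classical
  rw [← cardX m]
  have h1 : Fintype.card (E m T Y) =
      ((univ.filter (fun x => ¬ (m.v x ∈ Y ∧ m.v (m.a0 x) ∈ Y))).filter (· ∈ T)).card := by
    rw [Finset.filter_filter]
    refine Fintype.card_of_subtype _ fun x => ?_
    simp only [mem_filter, mem_univ, true_and]
    exact and_comm
  have h2 : m.d Y = (univ.filter (fun x => m.v x ∈ Y ∧ m.v (m.a0 x) ∈ Y)).card := by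
    unfold QFlag.d
    rw [← Set.ncard_coe_finset]
    congr 1
    ext x
    simp
  have h3 := quarter (m := m) hT (univ.filter (fun x => ¬ (m.v x ∈ Y ∧ m.v (m.a0 x) ∈ Y)))
    (fun x => by
      simp only [mem_filter, mem_univ, true_and]
      rw [m.i0, and_comm])
    (fun x => by
      simp only [mem_filter, mem_univ, true_and]
      rw [m.v2, v02])
  have h4 := Finset.card_filter_add_card_filter_not (s := (univ : Finset Ω))
    (fun x => m.v x ∈ Y ∧ m.v (m.a0 x) ∈ Y)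
  rw [Finset.card_univ] at h4
  rw [h1, h2]
  omega

theorem ranks [Fintype Ω] [Fintype V] [Fintype F] [Fintype (E m T Y)]
    (hT : Rep m T) (hY : Y.Nonempty) :
    Module.finrank (ZMod 2) (LinearMap.range (δ m T Y)) + Y.ncard = Fintype.card V ∧
    Module.finrank (ZMod 2) (LinearMap.ker (M m T Y).mulVecLin) + Fintype.card F ≤
      Fintype.card (E m T Y) + m.R Y := by
  classical
  constructor
  · rw [LinearMap.finrank_range_of_inj (δ_inj hT hY), Module.finrank_fintype_fun_eq_card]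
    have h : Yᶜ.ncard = Fintype.card {a : V // a ∉ Y} := by
      rw [← Nat.card_coe_set_eq, Nat.card_eq_fintype_card]
      exact Fintype.card_congr (Equiv.refl _)
    rw [← h, add_comm, Set.ncard_add_ncard_compl, Nat.card_eq_fintype_card]
  · have h1 := LinearMap.finrank_range_add_finrank_ker (M m T Y).mulVecLin
    have h2 := LinearMap.finrank_range_add_finrank_ker (M m T Y).transpose.mulVecLin
    have h3 : (M m T Y).transpose.rank = (M m T Y).rank := Matrix.rank_transpose _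
    unfold Matrix.rank at h3
    rw [Module.finrank_fintype_fun_eq_card] at h1 h2
    have h4 := ker_le (m := m) (T := T) (Y := Y) hT
    omega

end main

end KR_LA

/-- LA -/
theorem t_LA : S_LA := by
  classical
  intro Ω V F _ _ _ m Y hY
  have := Fintype.ofFinite Ω
  have := Fintype.ofFinite V
  have := Fintype.ofFinite F
  obtain ⟨T, hT⟩ := KR_LA.exT m
  have : Fintype (KR_LA.E m T Y) := Fintype.ofFinite _
  obtain ⟨h1, h2⟩ := KR_LA.ranks (m := m) (T := T) (Y := Y) hT hY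
  have h3 := Submodule.finrank_mono (KR_LA.range_le (m := m) (T := T) (Y := Y) hT)
  have h4 := KR_LA.cardE (m := m) (T := T) (Y := Y) hT
  have h5 := KR_LA.cardV m
  omega

end KR
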