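import Pool.Agent.KR.St

/-!
# Module KR_TC: 4-connected graphs of the class are tough (flags)
-/

set_option autoImplicit false

namespace KR

open Function

namespace KR_TC

variable {Ω V F : Type}

/-- region of a flag -/
def rg (m : QFlag Ω V F) (Y : Set V) (x : Ω) : Quot (m.J Y) := Quot.mk _ (m.f x)

theorem rg_a0 (m : QFlag Ω V F) (Y : Set V) (x : Ω) : rg m Y (m.a0 x) = rg m Y x :=
  congrArg (Quot.mk _) (m.f0 x)

theorem rg_a1 (m : QFlag Ω V F) (Y : Set V) (x : Ω) : rg m Y (m.a1 x) = rg m Y x :=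
  congrArg (Quot.mk _) (m.f1 x)

theorem rg_a2 (m : QFlag Ω V F) (Y : Set V) (x : Ω) (h : ¬ (m.v x ∈ Y ∧ m.v (m.a0 x) ∈ Y)) :
    rg m Y (m.a2 x) = rg m Y x := (Quot.sound ⟨x, h, rfl, rfl⟩).symm

theorem step (m : QFlag Ω V F) (g : Ω → Prop) (a : V) (x : Ω) (hx : m.v x = a)
    (h0 : g x) (h1 : ∀ y, m.v y = a → g y → g (m.a1 y))
    (h2 : ∀ y, m.v y = a → g y → g (m.a2 y)) : ∀ y, m.v y = a → g y := by
  intro y hy
  have key := m.vv (fun y => m.v y = a → g y) ?_ ?_ x y (hx.trans hy.symm) (fun _ => h0)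
  · exact key hy
  · intro z
    constructor
    · intro h hz
      have h3 := h1 (m.a1 z) ((m.v1 z).trans hz) (h ((m.v1 z).trans hz))
      rwa [m.i1] at h3
    · intro h hz
      rw [m.v1] at hz
      exact h1 z hz (h hz)
  · intro z
    constructor
    · intro h hz
      have h3 := h2 (m.a2 z) ((m.v2 z).trans hz) (h ((m.v2 z).trans hz))
      rwa [m.i2] at h3
    · intro h hz
      rw [m.v2] at hz
      exact h2 z hz (h hz)

theorem rg_out (m : QFlag Ω V F) (Y : Set V) {x y : Ω} (h : m.v x = m.v y)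
    (hx : m.v x ∉ Y) : rg m Y y = rg m Y x := by
  refine step m (fun y => rg m Y y = rg m Y x) (m.v x) x rfl rfl ?_ ?_ y h.symm
  · intro z _ hg
    exact (rg_a1 m Y z).trans hg
  · intro z hz hg
    refine (rg_a2 m Y z ?_).trans hg
    rintro ⟨h1, -⟩
    rw [hz] at h1
    exact hx h1

/-- vertices of `Y` at a region -/
def N (m : QFlag Ω V F) (Y : Set V) (ρ : Quot (m.J Y)) : Set V :=
  {a | a ∈ Y ∧ ∃ x, m.v x = a ∧ rg m Y x = ρ}

theorem four [Finite Ω] [Fintype V] [Fintype F] (m : QFlag Ω V F) (G : SimpleGraph (V ⊕ F))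
    (hG : m.Btw G) (h4 : FourConn G) (Y : Set V) (hR : 2 ≤ m.R Y) (ρ : Quot (m.J Y)) :
    4 ≤ (N m Y ρ).ncard := by
  classical
  by_contra hlt
  push Not at hlt
  have hnt : Nontrivial (Quot (m.J Y)) := by
    apply Finite.one_lt_card_iff_nontrivial.1
    exact hR
  obtain ⟨ρ1, hρ1⟩ := exists_ne ρ
  let S : Finset (V ⊕ F) := (Set.toFinset (N m Y ρ)).image Sum.inl
  have hS : S.card < 4 := by
    refine lt_of_le_of_lt Finset.card_image_le ?_
    rwa [← Set.ncard_eq_toFinset_card']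
  have hc := h4.2 S hS
  have memS : ∀ a, Sum.inl a ∈ S ↔ a ∈ N m Y ρ := by
    intro a
    simp [S]
  have memS' : ∀ b : F, (Sum.inr b : V ⊕ F) ∉ S := by
    intro b
    simp [S]
  let Q : V ⊕ F → Prop := fun z =>
    (∃ b, z = Sum.inr b ∧ (Quot.mk _ b : Quot (m.J Y)) = ρ) ∨
      (∃ a, z = Sum.inl a ∧ a ∉ Y ∧ ∃ x, m.v x = a ∧ rg m Y x = ρ)
  have hcl : ∀ z z' : V ⊕ F, z' ∉ S → G.Adj z z' → Q z → Q z' := by
    intro z z' hz' hadj hQ
    rcases hQ with ⟨b, rfl, hb⟩ | ⟨a, rfl, ha, x, hx, hxρ⟩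
    · rcases z' with a | b'
      · obtain ⟨x, hx, hxb⟩ := (hG.vf a b).1 hadj.symm
        have hxρ : rg m Y x = ρ := by
          unfold rg
          rw [hxb, hb]
        by_cases haY : a ∈ Y
        · exact absurd ((memS a).2 ⟨haY, x, hx, hxρ⟩) hz'
        · exact Or.inr ⟨a, rfl, haY, x, hx, hxρ⟩
      · exact absurd hadj (hG.ff b b')
    · rcases z' with a' | b
      · obtain ⟨y, hy, hy'⟩ := hG.vv a a' hadj
        have h1 : rg m Y y = ρ := by
          rw [← hxρ]
          exact rg_out m Y (hx.trans hy.symm) (hx ▸ ha)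
        have h2 : rg m Y (m.a0 y) = ρ := (rg_a0 m Y y).trans h1
        by_cases haY : a' ∈ Y
        · exact absurd ((memS a').2 ⟨haY, m.a0 y, hy', h2⟩) hz'
        · exact Or.inr ⟨a', rfl, haY, m.a0 y, hy', h2⟩
      · obtain ⟨y, hy, hyb⟩ := (hG.vf a b).1 hadj
        have h1 : rg m Y y = ρ := by
          rw [← hxρ]
          exact rg_out m Y (hx.trans hy.symm) (hx ▸ ha)
        refine Or.inl ⟨b, rfl, ?_⟩
        rw [← h1, ← hyb]
        rfl
  obtain ⟨b0, hb0⟩ := Quot.exists_rep ρ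
  obtain ⟨b1, hb1⟩ := Quot.exists_rep ρ1
  have hreach := hc.preconnected ⟨Sum.inr b0, by simpa using memS' b0⟩
    ⟨Sum.inr b1, by simpa using memS' b1⟩
  have hwalk : ∀ (z z' : ((S : Set (V ⊕ F))ᶜ : Set (V ⊕ F))),
      (G.induce ((S : Set (V ⊕ F))ᶜ)).Walk z z' → Q z.1 → Q z'.1 := by
    intro z z' p
    induction p with
    | nil => exact id
    | cons hadj _ ih =>
      intro hQ
      apply ih
      refine hcl _ _ ?_ hadj hQ
      rename_i u v w p
      exact fun hv => v.2 (Finset.mem_coe.2 hv)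
  obtain ⟨p⟩ := hreach
  have hQ1 := hwalk _ _ p (Or.inl ⟨b0, rfl, hb0⟩)
  rcases hQ1 with ⟨b, hb, hbρ⟩ | ⟨a, ha, -⟩
  · have : b1 = b := Sum.inr_injective hb
    subst this
    exact hρ1 (hb1.symm.trans hbρ)
  · exact absurd ha (by simp)

/-- a finite set with a fixed point free involution has an even number of elements -/
theorem even_of_inv {α : Type} (s : Finset α) (g : α → α) (hg : ∀ x ∈ s, g x ∈ s)
    (hi : ∀ x ∈ s, g (g x) = x) (hn : ∀ x ∈ s, g x ≠ x) : 2 ∣ s.card := by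
  have h1 : ∑ _x ∈ s, (1 : ZMod 2) = 0 := by
    refine Finset.sum_involution (fun x _ => g x) ?_ ?_ ?_ ?_
    · intro x _
      decide
    · intro x hx _
      exact hn x hx
    · intro x hx
      exact hg x hx
    · intro x hx
      exact hi x hx
  rw [Finset.sum_const, nsmul_eq_mul, mul_one] at h1
  exact (ZMod.natCast_eq_zero_iff _ _).1 h1

/-- every region seen at a vertex with an edge inside `Y` has at least two flags on such edges -/
theorem two (m : QFlag Ω V F) (Y : Set V) (a : V) (ρ : Quot (m.J Y)) (A : Finset Ω)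
    (hA : ∀ x, x ∈ A ↔ (m.v x ∈ Y ∧ m.v (m.a0 x) ∈ Y) ∧ m.v x = a) [Fintype Ω]
    [DecidableEq Ω] [DecidableEq V] [DecidableEq (Quot (m.J Y))]
    (hne : A.Nonempty) (hρ : ∃ x, m.v x = a ∧ rg m Y x = ρ) :
    2 ≤ (A.filter (fun x => rg m Y x = ρ)).card := by
  obtain ⟨x0, hx0⟩ := hne
  have haY : a ∈ Y := by
    have := (hA x0).1 hx0
    rw [← this.2]
    exact this.1.1
  obtain ⟨y, hy, hyρ⟩ := hρ
  let B : Finset Ω := Finset.univ.filter (fun x => m.v x = a ∧ rg m Y x = ρ)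
  have hB : ∀ x, x ∈ B ↔ m.v x = a ∧ rg m Y x = ρ := by
    intro x
    simp [B]
  let C : Finset Ω := B.filter (fun x => x ∉ A)
  have hC : ∀ x, x ∈ C ↔ (m.v x = a ∧ rg m Y x = ρ) ∧ m.v (m.a0 x) ∉ Y := by
    intro x
    simp only [C, Finset.mem_filter, hB, hA]
    constructor
    · rintro ⟨h1, h2⟩
      refine ⟨h1, fun h3 => h2 ⟨⟨?_, h3⟩, h1.1⟩⟩
      rw [h1.1]
      exact haY
    · rintro ⟨h1, h2⟩
      exact ⟨h1, fun h3 => h2 h3.1.2⟩
  have eB : 2 ∣ B.card := by
    refine even_of_inv B m.a1 ?_ (fun x _ => m.i1 x) (fun x _ => m.n1 x)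
    intro x hx
    rw [hB] at hx ⊢
    rw [m.v1, rg_a1]
    exact hx
  have eC : 2 ∣ C.card := by
    refine even_of_inv C m.a2 ?_ (fun x _ => m.i2 x) (fun x _ => m.n2 x)
    intro x hx
    rw [hC] at hx ⊢
    rw [m.v2, rg_a2 m Y x (fun h => hx.2 h.2), m.c02, m.v2]
    exact hx
  have hBA : B.filter (fun x => x ∈ A) = A.filter (fun x => rg m Y x = ρ) := by
    ext x
    simp only [Finset.mem_filter, hB, hA]
    constructor
    · rintro ⟨⟨h1, h2⟩, h3⟩
      exact ⟨h3, h2⟩
    · rintro ⟨h1, h2⟩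
      exact ⟨⟨h1.2, h2⟩, h1⟩
  have hsplit := Finset.card_filter_add_card_filter_not (s := B) (fun x => x ∈ A)
  rw [hBA] at hsplit
  change _ + C.card = _ at hsplit
  have hne : (A.filter (fun x => rg m Y x = ρ)).Nonempty := by
    by_contra hemp
    rw [Finset.not_nonempty_iff_eq_empty] at hemp
    have hno : ∀ z, z ∈ A → rg m Y z ≠ ρ := by
      intro z hz h1
      have : z ∈ A.filter (fun x => rg m Y x = ρ) := Finset.mem_filter.2 ⟨hz, h1⟩
      rw [hemp] at this
      exact absurd this (Finset.notMem_empty z)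
    have key := step m (fun z => rg m Y z = ρ) a y hy hyρ ?_ ?_ x0 ((hA x0).1 hx0).2
    · exact hno x0 hx0 key
    · intro z _ hg
      exact (rg_a1 m Y z).trans hg
    · intro z hz hg
      refine (rg_a2 m Y z ?_).trans hg
      intro h1
      exact hno z ((hA z).2 ⟨h1, hz⟩) hg
  have hpos := hne.card_pos
  omega

theorem count [Finite Ω] [Fintype V] [Fintype F] (m : QFlag Ω V F) (Y : Set V)
    (h4 : ∀ ρ, 4 ≤ (N m Y ρ).ncard) :
    8 * m.R Y ≤ m.d Y +
      2 * (Y \ {a | ∃ x, (m.v x ∈ Y ∧ m.v (m.a0 x) ∈ Y) ∧ m.v x = a}).ncard := by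
  classical
  have := Fintype.ofFinite Ω
  have := Fintype.ofFinite (Quot (m.J Y))
  let P : V → Quot (m.J Y) → Prop := fun a ρ => a ∈ N m Y ρ
  let D : Finset Ω := Finset.univ.filter (fun x => m.v x ∈ Y ∧ m.v (m.a0 x) ∈ Y)
  let I : Finset V := Finset.univ.filter
    (fun a => a ∈ Y ∧ ¬ ∃ x, (m.v x ∈ Y ∧ m.v (m.a0 x) ∈ Y) ∧ m.v x = a)
  have hd : m.d Y = D.card := by
    unfold QFlag.d
    rw [← Set.ncard_coe_finset]
    congr 1
    ext x
    simp [D]
  have hI : (Y \ {a | ∃ x, (m.v x ∈ Y ∧ m.v (m.a0 x) ∈ Y) ∧ m.v x = a}).ncard = I.card := by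
    rw [← Set.ncard_coe_finset]
    congr 1
    ext x
    simp [I]
  rw [hd, hI]
  have hsum := Finset.sum_card_bipartiteAbove_eq_sum_card_bipartiteBelow
    (s := (Finset.univ : Finset V)) (t := (Finset.univ : Finset (Quot (m.J Y)))) P
  have hlow : 4 * m.R Y ≤ ∑ ρ : Quot (m.J Y),
      ((Finset.univ : Finset V).bipartiteBelow P ρ).card := by
    have : ∀ ρ ∈ (Finset.univ : Finset (Quot (m.J Y))),
        4 ≤ ((Finset.univ : Finset V).bipartiteBelow P ρ).card := by
      intro ρ _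
      refine le_of_le_of_eq (h4 ρ) ?_
      rw [← Set.ncard_coe_finset]
      congr 1
      ext a
      simp [P]
    have h5 := Finset.card_nsmul_le_sum _ _ _ this
    rw [Finset.card_univ, smul_eq_mul, mul_comm] at h5
    unfold QFlag.R
    rw [Nat.card_eq_fintype_card]
    exact h5
  have hup : ∑ a : V, 2 * ((Finset.univ : Finset (Quot (m.J Y))).bipartiteAbove P a).card ≤
      ∑ a : V, ((D.filter (fun x => m.v x = a)).card + if a ∈ I then 2 else 0) := by
    refine Finset.sum_le_sum ?_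
    intro a _
    by_cases haY : a ∈ Y
    swap
    · have : ((Finset.univ : Finset (Quot (m.J Y))).bipartiteAbove P a) = ∅ := by
        ext ρ
        simp only [Finset.mem_bipartiteAbove, Finset.mem_univ, true_and, Finset.notMem_empty,
          iff_false]
        exact fun h => haY h.1
      rw [this]
      simp
    by_cases hx : ∃ x, (m.v x ∈ Y ∧ m.v (m.a0 x) ∈ Y) ∧ m.v x = a
    · have hA : ∀ x, x ∈ D.filter (fun x => m.v x = a) ↔
          (m.v x ∈ Y ∧ m.v (m.a0 x) ∈ Y) ∧ m.v x = a := by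
        intro x
        simp [D]
      have hne : (D.filter (fun x => m.v x = a)).Nonempty := by
        obtain ⟨x, hx⟩ := hx
        exact ⟨x, (hA x).2 hx⟩
      refine le_trans ?_ (Nat.le_add_right _ _)
      have h5 : ∀ ρ ∈ ((Finset.univ : Finset (Quot (m.J Y))).bipartiteAbove P a),
          2 ≤ ((D.filter (fun x => m.v x = a)).filter (fun x => rg m Y x = ρ)).card := by
        intro ρ hρ
        simp only [Finset.mem_bipartiteAbove, Finset.mem_univ, true_and] at hρ
        exact two m Y a ρ _ hA hne hρ.2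
      have h6 := Finset.card_nsmul_le_sum _ _ _ h5
      rw [smul_eq_mul, mul_comm] at h6
      refine h6.trans ?_
      have h7 : ∑ ρ ∈ ((Finset.univ : Finset (Quot (m.J Y))).bipartiteAbove P a),
          ((D.filter (fun x => m.v x = a)).filter (fun x => rg m Y x = ρ)).card ≤
          ∑ ρ ∈ (Finset.univ : Finset (Quot (m.J Y))),
          ((D.filter (fun x => m.v x = a)).filter (fun x => rg m Y x = ρ)).card :=
        Finset.sum_le_sum_of_subset (Finset.subset_univ _)
      refine h7.trans (le_of_eq ?_)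
      exact (Finset.card_eq_sum_card_fiberwise (fun x _ => Finset.mem_univ (rg m Y x))).symm
    · have haI : a ∈ I := by
        simp only [I, Finset.mem_filter, Finset.mem_univ, true_and]
        exact ⟨haY, hx⟩
      rw [if_pos haI]
      refine le_trans ?_ (Nat.le_add_left _ _)
      refine le_trans (Nat.mul_le_mul_left 2 (m := 1) ?_) (le_refl _)
      rw [Finset.card_le_one]
      intro ρ hρ ρ' hρ'
      simp only [Finset.mem_bipartiteAbove, Finset.mem_univ, true_and] at hρ hρ'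
      obtain ⟨-, y, hy, hyρ⟩ := hρ
      obtain ⟨-, y', hy', hyρ'⟩ := hρ'
      have key := step m (fun z => rg m Y z = rg m Y y) a y hy rfl ?_ ?_ y' hy'
      · rw [← hyρ, ← hyρ']
        exact key.symm
      · intro z _ hg
        exact (rg_a1 m Y z).trans hg
      · intro z hz hg
        refine (rg_a2 m Y z ?_).trans hg
        intro hJ
        exact hx ⟨z, hJ, hz⟩
  have hfin : ∑ a : V, ((D.filter (fun x => m.v x = a)).card + if a ∈ I then 2 else 0) =
      D.card + 2 * I.card := by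
    rw [Finset.sum_add_distrib]
    congr 1
    · exact (Finset.card_eq_sum_card_fiberwise (fun x _ => Finset.mem_univ (m.v x))).symm
    · rw [← Finset.sum_filter, Finset.sum_const, smul_eq_mul, mul_comm]
      simp
  rw [← Finset.mul_sum, hfin] at hup
  rw [← hsum] at hlow
  omega

end KR_TC

theorem t_TC (h : S_LA) : S_TC := by
  classical
  intro Ω V F _ _ _ m G hG h4 Y hY
  by_cases hR : 2 ≤ m.R Y
  swap
  · have : 1 ≤ Y.ncard := (Set.ncard_pos (Set.toFinite Y)).2 hY
    omega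
  have hc := KR_TC.count m Y (KR_TC.four m G hG h4 Y hR)
  set E : Set V := {a | ∃ x, (m.v x ∈ Y ∧ m.v (m.a0 x) ∈ Y) ∧ m.v x = a} with hE
  have hEY : E ⊆ Y := by
    rintro a ⟨x, hx, rfl⟩
    exact hx.1
  have hcard : (Y \ E).ncard + E.ncard = Y.ncard := Set.ncard_sdiff_add_ncard_of_subset hEY
  have hin : ∀ x, (m.v x ∈ E ∧ m.v (m.a0 x) ∈ E) ↔ (m.v x ∈ Y ∧ m.v (m.a0 x) ∈ Y) := by
    intro x
    constructor
    · rintro ⟨h1, h2⟩
      exact ⟨hEY h1, hEY h2⟩
    · rintro ⟨h1, h2⟩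
      refine ⟨⟨x, ⟨h1, h2⟩, rfl⟩, ⟨m.a0 x, ⟨h2, ?_⟩, rfl⟩⟩
      rw [m.i0]
      exact h1
  have hd : m.d E = m.d Y := by
    unfold QFlag.d
    simp only [hin]
  have hJ : m.J E = m.J Y := by
    funext a b
    unfold QFlag.J
    simp only [hin]
  have hRR : m.R E = m.R Y := by
    unfold QFlag.R
    rw [hJ]
  by_cases hne : E.Nonempty
  · have h1 := h Ω V F m E hne
    rw [hd, hRR] at h1
    omega
  · have hE0 : E = ∅ := Set.not_nonempty_iff_eq_empty.1 hne
    have hd0 : m.d Y = 0 := by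
      rw [← hd]
      unfold QFlag.d
      rw [hE0]
      simp
    have hE1 : E.ncard = 0 := by
      rw [hE0]
      simp
    omega

end KR
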