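import Mathlib

/-!
# Flag maps (project MP_b1567b_co, tight class, all parity types)

`Ω` is the set of flags of a map on a closed surface (orientable or not).  The involutions `a0`,
`a1`, `a2` change the vertex, the edge, the face of a flag and keep the two other entries.
-/

set_option autoImplicit false

namespace KR

open Function

/-- A cellular embedding of the simple graph `G` in a closed surface, given by its flags. -/
structure GMap {W : Type} (G : SimpleGraph W) (Ω : Type) where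
  /-- change the vertex -/
  a0 : Ω → Ω
  /-- change the edge -/
  a1 : Ω → Ω
  /-- change the face -/
  a2 : Ω → Ω
  /-- vertex of a flag -/
  w : Ω → W
  i0 : ∀ x, a0 (a0 x) = x
  i1 : ∀ x, a1 (a1 x) = x
  i2 : ∀ x, a2 (a2 x) = x
  n1 : ∀ x, a1 x ≠ x
  n2 : ∀ x, a2 x ≠ x
  c02 : ∀ x, a0 (a2 x) = a2 (a0 x)
  w1 : ∀ x, w (a1 x) = w x
  w2 : ∀ x, w (a2 x) = w x
  /-- the flags at a vertex form one orbit of `a1`, `a2` -/
  vtx : ∀ g : Ω → Prop, (∀ x, g (a1 x) ↔ g x) → (∀ x, g (a2 x) ↔ g x) →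
    ∀ x y, w x = w y → g x → g y
  /-- the edges of the map are the edges of `G` -/
  adj : ∀ u v, G.Adj u v ↔ ∃ x, w x = u ∧ w (a0 x) = v
  /-- every edge of `G` appears once -/
  uniq : ∀ x y, w x = w y → w (a0 x) = w (a0 y) → y = x ∨ y = a2 x

variable {W : Type} {G : SimpleGraph W} {Ω : Type}

/-- two flags are related when `a0` or `a1` maps one to the other -/
def GMap.Fr (M : GMap G Ω) (x y : Ω) : Prop := y = M.a0 x ∨ y = M.a1 x

/-- a face is an orbit of `a0`, `a1` -/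
def GMap.Face (M : GMap G Ω) : Type := Quot M.Fr

/-- the Euler characteristic `|V| - |E| + |F|` is nonnegative, with `|E| = |Ω| / 4` -/
def GMap.EulerNonneg (M : GMap G Ω) : Prop :=
  Nat.card Ω ≤ 4 * (Nat.card W + Nat.card M.Face)

/-- the local shape forced by an independent set `I` of half of the vertices: every vertex of `I`
has degree four, every face is a triangle with one corner in `I` or a quadrangle with two -/
structure GMap.Tight (M : GMap G Ω) (I : Set W) : Prop where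
  half : Nat.card W = 2 * I.ncard
  indep : ∀ u ∈ I, ∀ v ∈ I, ¬ G.Adj u v
  /-- triangle -/
  t1 : ∀ x, M.w x ∈ I → M.w (M.a0 (M.a1 (M.a0 x))) ∉ I →
    M.a1 (M.a0 (M.a1 x)) = M.a0 (M.a1 (M.a0 x))
  /-- quadrangle -/
  t2 : ∀ x, M.w x ∈ I → M.w (M.a0 (M.a1 (M.a0 x))) ∈ I →
    M.a0 (M.a1 (M.a0 (M.a1 x))) = M.a1 (M.a0 (M.a1 (M.a0 x)))
  /-- an edge outside `I` lies in triangles with apex in `I` -/
  t3 : ∀ u, M.w u ∉ I → M.w (M.a0 u) ∉ I → M.w (M.a0 (M.a1 u)) ∈ I
  /-- no face has length two -/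
  t4 : ∀ x, M.a0 (M.a1 x) ≠ M.a1 (M.a0 x)
  /-- degree four -/
  t5 : ∀ x, M.w x ∈ I → M.a1 (M.a2 (M.a1 (M.a2 x))) = M.a2 (M.a1 (M.a2 (M.a1 x))) ∧
    M.a1 (M.a2 (M.a1 (M.a2 x))) ≠ x

/-- quadrangular map given by flags, connected, with as many vertices as faces (Euler
characteristic `0`) -/
structure QFlag (Ω V F : Type) where
  /-- change the vertex -/
  a0 : Ω → Ω
  /-- change the edge -/
  a1 : Ω → Ω
  /-- change the face -/
  a2 : Ω → Ω
  /-- vertex of a flag -/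
  v : Ω → V
  /-- face of a flag -/
  f : Ω → F
  i0 : ∀ x, a0 (a0 x) = x
  i1 : ∀ x, a1 (a1 x) = x
  i2 : ∀ x, a2 (a2 x) = x
  n0 : ∀ x, a0 x ≠ x
  n1 : ∀ x, a1 x ≠ x
  n2 : ∀ x, a2 x ≠ x
  c02 : ∀ x, a0 (a2 x) = a2 (a0 x)
  n02 : ∀ x, a0 (a2 x) ≠ x
  /-- faces have length four -/
  q4 : ∀ x, a0 (a1 (a0 (a1 x))) = a1 (a0 (a1 (a0 x)))
  n4 : ∀ x, a0 (a1 (a0 (a1 x))) ≠ x
  v1 : ∀ x, v (a1 x) = v x
  v2 : ∀ x, v (a2 x) = v x
  /-- the flags at a vertex form one orbit of `a1`, `a2` -/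
  vv : ∀ g : Ω → Prop, (∀ x, g (a1 x) ↔ g x) → (∀ x, g (a2 x) ↔ g x) →
    ∀ x y, v x = v y → g x → g y
  f0 : ∀ x, f (a0 x) = f x
  f1 : ∀ x, f (a1 x) = f x
  /-- the flags of a face form one orbit of `a0`, `a1` -/
  ff : ∀ g : Ω → Prop, (∀ x, g (a0 x) ↔ g x) → (∀ x, g (a1 x) ↔ g x) →
    ∀ x y, f x = f y → g x → g y
  vs : Surjective v
  fs : Surjective f
  conn : ∀ g : Ω → Prop, (∀ x, g (a0 x) ↔ g x) → (∀ x, g (a1 x) ↔ g x) →
    (∀ x, g (a2 x) ↔ g x) → ∀ x y, g x → g y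
  eul : Nat.card V = Nat.card F

namespace QFlag

variable {V F : Type} (m : QFlag Ω V F)

/-- `O` is a 2-orientation: a set of darts (`a2`-closed set of flags), one dart of every edge,
two darts (four flags) at every vertex -/
structure Ori (O : Set Ω) : Prop where
  o2 : ∀ x, m.a2 x ∈ O ↔ x ∈ O
  o0 : ∀ x, x ∈ O ↔ m.a0 x ∉ O
  deg : ∀ a : V, {x | x ∈ O ∧ m.v x = a}.ncard = 4

/-- the two faces at the edge of `x` are joined when the edge is not inside `Y` -/
def J (Y : Set V) (a b : F) : Prop :=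
  ∃ x, ¬ (m.v x ∈ Y ∧ m.v (m.a0 x) ∈ Y) ∧ a = m.f x ∧ b = m.f (m.a2 x)

/-- number of regions of the complement of the subgraph induced by `Y` -/
noncomputable def R (Y : Set V) : ℕ := Nat.card (Quot (m.J Y))

/-- number of flags (four times the number of edges) inside `Y` -/
noncomputable def d (Y : Set V) : ℕ := {x | m.v x ∈ Y ∧ m.v (m.a0 x) ∈ Y}.ncard

/-- every nonempty vertex set `Y` has at most `|Y|` regions -/
def Tough : Prop := ∀ Y : Set V, Y.Nonempty → m.R Y ≤ Y.ncard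

/-- `G` lies between the vertex-face graph and the vertex-face graph plus the edges of the map -/
structure Btw (G : SimpleGraph (V ⊕ F)) : Prop where
  vf : ∀ a b, G.Adj (Sum.inl a) (Sum.inr b) ↔ ∃ x, m.v x = a ∧ m.f x = b
  ff : ∀ a b, ¬ G.Adj (Sum.inr a) (Sum.inr b)
  vv : ∀ a b, G.Adj (Sum.inl a) (Sum.inl b) → ∃ x, m.v x = a ∧ m.v (m.a0 x) = b

/-- `C` is the set of corners (`a1`-closed sets of flags) of a connected 2-factor of the
vertex-face incidence graph: two corners (four flags) at every vertex and in every face -/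
structure Fac (C : Set Ω) : Prop where
  c1 : ∀ x, m.a1 x ∈ C ↔ x ∈ C
  dv : ∀ a : V, {x | x ∈ C ∧ m.v x = a}.ncard = 4
  df : ∀ b : F, {x | x ∈ C ∧ m.f x = b}.ncard = 4
  cn : ∀ g : Ω → Prop, (∀ x ∈ C, ∀ y ∈ C, m.v x = m.v y → g x → g y) →
    (∀ x ∈ C, ∀ y ∈ C, m.f x = m.f y → g x → g y) → ∀ x ∈ C, ∀ y ∈ C, g x → g y

end QFlag

/-- 4-connected, as in the frozen statement -/
def FourConn {U : Type} [Fintype U] (G : SimpleGraph U) : Prop :=
  5 ≤ Fintype.card U ∧ ∀ S : Finset U, S.card < 4 → (G.induce ((S : Set U)ᶜ)).Connected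

end KR
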