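import Pool.Agent.KR.St
import Pool.Agent.KR.KR_LA

/-!
# Existence of a 2-orientation (project MP_b1567b_co)
-/

set_option autoImplicit false

namespace KR

open Function

namespace KR_HALL

variable {Ω V F : Type} (m : QFlag Ω V F)

/-- the representative of the edge of a flag -/
theorem rep_exists {T : Set Ω} (hT : KR_LA.Rep m T) : ∃ ρ : Ω → Ω, (∀ z, ρ z ∈ T) ∧
    (∀ z, ρ (m.a0 z) = ρ z) ∧ (∀ z, ρ (m.a2 z) = ρ z) ∧ (∀ x ∈ T, ρ x = x) ∧
    ∀ z, z = ρ z ∨ z = m.a0 (ρ z) ∨ z = m.a2 (ρ z) ∨ z = m.a0 (m.a2 (ρ z)) := by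
  classical
  have e1 : ∀ x, m.a2 (m.a0 x) = m.a0 (m.a2 x) := fun x => (m.c02 x).symm
  have e2 : ∀ x, m.a0 (m.a2 (m.a0 x)) = m.a2 x := fun x => by rw [e1, m.i0]
  have e3 : ∀ x, m.a2 (m.a0 (m.a2 x)) = m.a0 x := fun x => by rw [← m.c02, m.i2]
  refine ⟨fun z => if z ∈ T then z else if m.a0 z ∈ T then m.a0 z else
    if m.a2 z ∈ T then m.a2 z else m.a0 (m.a2 z), ?_, ?_, ?_, ?_, ?_⟩
  · intro z
    rcases hT z with h | h | h | h <;> obtain ⟨ha, hb, hc, hd⟩ := h <;>
      simp [ha, hb, hc, hd]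
  · intro z
    rcases hT z with h | h | h | h <;> obtain ⟨ha, hb, hc, hd⟩ := h <;>
      simp [ha, hb, hc, hd, m.i0, e2, e1]
  · intro z
    rcases hT z with h | h | h | h <;> obtain ⟨ha, hb, hc, hd⟩ := h <;>
      simp [ha, hb, hc, hd, m.i2]
  · intro x hx
    simp [hx]
  · intro z
    rcases hT z with h | h | h | h <;> obtain ⟨ha, hb, hc, hd⟩ := h <;>
      simp [ha, hb, hc, hd, m.i0, m.i2, e3]

theorem hall_cond [Fintype V] [Fintype Ω] {T : Set Ω} (hT : KR_LA.Rep m T)
    [DecidableEq V] (hY : ∀ Y : Set V, Y.Nonempty → m.d Y ≤ 8 * Y.ncard) (S : Finset T) :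
    S.card ≤ (S.biUnion fun x : T =>
      ({m.v x, m.v (m.a0 x)} : Finset V) ×ˢ (Finset.univ : Finset (Fin 2))).card := by
  classical
  rcases S.eq_empty_or_nonempty with rfl | hne
  · simp
  set Y : Finset V := S.biUnion fun x : T => ({m.v x, m.v (m.a0 x)} : Finset V) with hYdef
  have h1 : (S.biUnion fun x : T =>
      ({m.v x, m.v (m.a0 x)} : Finset V) ×ˢ (Finset.univ : Finset (Fin 2))) =
      Y ×ˢ (Finset.univ : Finset (Fin 2)) := by
    ext ⟨a, i⟩
    simp only [hYdef, Finset.mem_biUnion, Finset.mem_product, Finset.mem_univ, and_true]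
  rw [h1, Finset.card_product, Finset.card_univ, Fintype.card_fin]
  obtain ⟨x0, hx0⟩ := hne
  have hYne : (Y : Set V).Nonempty := by
    refine ⟨m.v x0, ?_⟩
    rw [Finset.mem_coe, hYdef, Finset.mem_biUnion]
    exact ⟨x0, hx0, by simp⟩
  have h2 := hY Y hYne
  rw [Set.ncard_coe_finset] at h2
  let A : Finset Ω := Finset.univ.filter fun x => m.v x ∈ Y ∧ m.v (m.a0 x) ∈ Y
  have hA : ∀ x, x ∈ A ↔ m.v x ∈ Y ∧ m.v (m.a0 x) ∈ Y := by
    intro x
    simp [A]
  have hd : m.d Y = A.card := by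
    unfold QFlag.d
    rw [← Set.ncard_coe_finset]
    refine congrArg Set.ncard ?_
    ext x
    rw [Finset.mem_coe, hA]
    rfl
  have hq := KR_LA.quarter hT A (by
    intro x
    rw [hA, hA, m.i0]
    exact and_comm) (by
    intro x
    rw [hA, hA, m.v2, m.c02, m.v2])
  have h3 : S.card ≤ (A.filter (· ∈ T)).card := by
    rw [← Finset.card_image_of_injective S Subtype.val_injective]
    apply Finset.card_le_card
    intro y hy
    rw [Finset.mem_image] at hy
    obtain ⟨x, hx, rfl⟩ := hy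
    rw [Finset.mem_filter, hA]
    refine ⟨⟨?_, ?_⟩, x.2⟩
    · rw [hYdef, Finset.mem_biUnion]
      exact ⟨x, hx, by simp⟩
    · rw [hYdef, Finset.mem_biUnion]
      exact ⟨x, hx, by simp⟩
  omega

end KR_HALL

open KR_HALL in
theorem t_HALL : S_HALL := by
  classical
  intro Ω V F _ _ _ m hY
  have := Fintype.ofFinite Ω
  have := Fintype.ofFinite V
  have := Fintype.ofFinite F
  obtain ⟨T, hT⟩ := KR_LA.exT m
  obtain ⟨ρ, r1, r2, r3, r4, r5⟩ := rep_exists m hT
  obtain ⟨c, hc, hc'⟩ := (Finset.all_card_le_biUnion_card_iff_exists_injective _).1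
    (hall_cond m hT hY)
  have hcard : Fintype.card T = Fintype.card (V × Fin 2) := by
    have h1 := KR_LA.quarter hT Finset.univ (by simp) (by simp)
    have h2 := KR_LA.cardX m
    have h3 := KR_LA.cardV m
    have h4 : Fintype.card T = (Finset.univ.filter (· ∈ T)).card := Fintype.card_subtype _
    rw [Fintype.card_prod, Fintype.card_fin]
    rw [Finset.card_univ] at h1
    omega
  have hbij : Bijective c := (Fintype.bijective_iff_injective_and_card c).2 ⟨hc, hcard⟩
  have hend : ∀ x : T, (c x).1 = m.v x ∨ (c x).1 = m.v (m.a0 x) := by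
    intro x
    have h1 := hc' x
    rw [Finset.mem_product, Finset.mem_insert, Finset.mem_singleton] at h1
    exact h1.1
  obtain ⟨q, hq1, hq2⟩ : ∃ q : T → Ω, (∀ x, q x = x ∨ q x = m.a0 x) ∧
      ∀ x, m.v (q x) = (c x).1 := by
    refine ⟨fun x => if (c x).1 = m.v x then (x : Ω) else m.a0 x, ?_, ?_⟩
    · intro x
      by_cases h : (c x).1 = m.v x
      · exact Or.inl (if_pos h)
      · exact Or.inr (if_neg h)
    · intro x
      by_cases h : (c x).1 = m.v x
      · change m.v (if (c x).1 = m.v x then (x : Ω) else m.a0 x) = _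
        rw [if_pos h, h]
      · change m.v (if (c x).1 = m.v x then (x : Ω) else m.a0 x) = _
        rw [if_neg h, ((hend x).resolve_left h)]
  have hρq : ∀ x : T, ρ (q x) = x := by
    intro x
    rcases hq1 x with h | h
    · rw [h, r4 _ x.2]
    · rw [h, r2, r4 _ x.2]
  let O : Set Ω := {y | y = q ⟨ρ y, r1 y⟩ ∨ y = m.a2 (q ⟨ρ y, r1 y⟩)}
  have hO : ∀ y, y ∈ O ↔ (y = q ⟨ρ y, r1 y⟩ ∨ y = m.a2 (q ⟨ρ y, r1 y⟩)) := fun y => Iff.rfl
  have k0 : ∀ y, (⟨ρ (m.a0 y), r1 (m.a0 y)⟩ : T) = ⟨ρ y, r1 y⟩ := fun y => Subtype.ext (r2 y)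
  have k2 : ∀ y, (⟨ρ (m.a2 y), r1 (m.a2 y)⟩ : T) = ⟨ρ y, r1 y⟩ := fun y => Subtype.ext (r3 y)
  have kq : ∀ x, (⟨ρ (q x), r1 (q x)⟩ : T) = x := fun x => Subtype.ext (hρq x)
  refine ⟨O, ?_, ?_, ?_⟩
  · intro y
    rw [hO, hO, k2]
    constructor
    · rintro (h | h)
      · refine Or.inr ?_
        rw [← h, m.i2]
      · refine Or.inl ?_
        have h' := congrArg m.a2 h
        rw [m.i2, m.i2] at h'
        exact h'
    · rintro (h | h)
      · refine Or.inr ?_
        rw [← h]
      · refine Or.inl ?_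
        have h' := congrArg m.a2 h
        rw [m.i2] at h'
        exact h'
  · intro y
    rw [hO, hO, k0]
    have hw : ∀ w, (y = w ∨ y = m.a0 w ∨ y = m.a2 w ∨ y = m.a0 (m.a2 w)) →
        ((y = w ∨ y = m.a2 w) ↔ ¬ (m.a0 y = w ∨ m.a0 y = m.a2 w)) := by
      intro w h
      have n0 := m.n0 w
      have n2 := m.n2 w
      have n02 := m.n02 w
      have n3 : m.a0 w ≠ m.a2 w := by
        intro h'
        apply n02
        rw [← h', m.i0]
      have n4 : m.a0 (m.a2 w) ≠ m.a2 w := m.n0 _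
      rcases h with h | h | h | h
      · subst h
        simp [n0, n3]
      · subst h
        simp [m.i0, n0, n3]
      · subst h
        simp [n02, n4]
      · subst h
        simp [m.i0, n02, n4]
    apply hw
    have h5 := r5 y
    rcases hq1 ⟨ρ y, r1 y⟩ with h | h
    · rw [h]
      exact h5
    · rw [h]
      change y = m.a0 (ρ y) ∨ y = m.a0 (m.a0 (ρ y)) ∨ y = m.a2 (m.a0 (ρ y)) ∨
        y = m.a0 (m.a2 (m.a0 (ρ y)))
      rw [m.i0, ← m.c02, m.i0]
      rcases h5 with h5 | h5 | h5 | h5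
      · exact Or.inr (Or.inl h5)
      · exact Or.inl h5
      · exact Or.inr (Or.inr (Or.inr h5))
      · exact Or.inr (Or.inr (Or.inl h5))
  · intro a
    obtain ⟨y0, hy0⟩ := hbij.2 (a, 0)
    obtain ⟨y1, hy1⟩ := hbij.2 (a, 1)
    have hne : y0 ≠ y1 := by
      intro h
      rw [h, hy1] at hy0
      exact absurd (show (1 : Fin 2) = 0 from congrArg Prod.snd hy0) (by decide)
    have hne' : (y0 : Ω) ≠ y1 := fun h => hne (Subtype.ext h)
    have hset : {x | x ∈ O ∧ m.v x = a} =
        (({q y0, m.a2 (q y0), q y1, m.a2 (q y1)} : Finset Ω) : Set Ω) := by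
      ext x
      simp only [Set.mem_ofPred_eq, Finset.coe_insert, Finset.coe_singleton,
        Set.mem_insert_iff, Set.mem_singleton_iff]
      constructor
      · rintro ⟨hx, hv⟩
        rw [hO] at hx
        have h1 : (c ⟨ρ x, r1 x⟩).1 = a := by
          rw [← hq2, ← hv]
          rcases hx with h | h
          · exact congrArg m.v h.symm
          · rw [← m.v2]
            exact congrArg m.v h.symm
        have h2 : (c ⟨ρ x, r1 x⟩).2 = 0 ∨ (c ⟨ρ x, r1 x⟩).2 = 1 := by
          generalize (c ⟨ρ x, r1 x⟩).2 = i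
          fin_cases i
          · exact Or.inl rfl
          · exact Or.inr rfl
        rcases h2 with h2 | h2
        · have h3 : (⟨ρ x, r1 x⟩ : T) = y0 := hc (by rw [hy0]; exact Prod.ext h1 h2)
          rw [h3] at hx
          rcases hx with h | h
          · exact Or.inl h
          · exact Or.inr (Or.inl h)
        · have h3 : (⟨ρ x, r1 x⟩ : T) = y1 := hc (by rw [hy1]; exact Prod.ext h1 h2)
          rw [h3] at hx
          rcases hx with h | h
          · exact Or.inr (Or.inr (Or.inl h))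
          · exact Or.inr (Or.inr (Or.inr h))
      · have hv0 : m.v (q y0) = a := by rw [hq2, hy0]
        have hv1 : m.v (q y1) = a := by rw [hq2, hy1]
        rintro (rfl | rfl | rfl | rfl)
        · refine ⟨?_, hv0⟩
          rw [hO, kq]
          exact Or.inl rfl
        · refine ⟨?_, by rw [m.v2, hv0]⟩
          rw [hO, k2, kq]
          exact Or.inr rfl
        · refine ⟨?_, hv1⟩
          rw [hO, kq]
          exact Or.inl rfl
        · refine ⟨?_, by rw [m.v2, hv1]⟩
          rw [hO, k2, kq]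
          exact Or.inr rfl
    rw [hset, Set.ncard_coe_finset]
    have d1 : q y0 ≠ m.a2 (q y0) := (m.n2 _).symm
    have d2 : q y1 ≠ m.a2 (q y1) := (m.n2 _).symm
    have d3 : q y0 ≠ q y1 := by
      intro h
      apply hne'
      rw [← hρq, h, hρq]
    have d4 : q y0 ≠ m.a2 (q y1) := by
      intro h
      apply hne'
      rw [← hρq, h, r3, hρq]
    have d5 : m.a2 (q y0) ≠ q y1 := by
      intro h
      apply hne'
      rw [← hρq, ← hρq y1, ← h, r3]
    have d6 : m.a2 (q y0) ≠ m.a2 (q y1) := by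
      intro h
      apply d3
      rw [← m.i2 (q y0), h, m.i2]
    rw [Finset.card_insert_of_notMem, Finset.card_insert_of_notMem,
      Finset.card_insert_of_notMem, Finset.card_singleton]
    · simp [d2]
    · simp [d5, d6]
    · simp [d1, d3, d4]

end KR
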